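import Pool.Agent.W_7d29a1_OT.DefsOT
import Pool.Agent.W_7d29a1_AM.DeepU5
import Pool.Agent.W_7d29a1_AM.AmpNU5
import Pool.Agent.W_7d29a1_V.Conc42
import Pool.Agent.W_7d29a1_UC.Med31

/-!
Leaf EHRU for every law (helper81): a restricted free energy with a low mean is rarely large.
-/

namespace Pool.Agent.W_7d29a1_OT

open MeasureTheory ProbabilityTheory Filter Topology Pool.Agent.W_MP_7d29a1_pr
  Pool.Agent.W_7d29a1_h46 Pool.Agent.W_7d29a1_h46u Pool.Agent.W_7d29a1_D2.B35
  Pool.Agent.W_7d29a1_Q29 Pool.Agent.W_7d29a1_R34 Pool.Agent.W_7d29a1_SP Pool.Agent.W_7d29a1_PL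
  Pool.Agent.W_7d29a1_AM

namespace E81

variable {d : ℕ}

open Classical in
/-- the weights of the walks that end in `F` -/
noncomputable def cF (h : Vec d) (F : Finset (Pool.Agent.W_MP_7d29a1_pr.Site d)) (m : ℕ)
    (s : Fin m → Step d) : ℝ :=
  if pos s m ∈ F then U5.cw h m s else 0

lemma cF0 (h : Vec d) (F : Finset (Pool.Agent.W_MP_7d29a1_pr.Site d)) (m : ℕ)
    (s : Fin m → Step d) : 0 ≤ cF h F m s := by
  unfold cF
  split_ifs
  · exact (Real.exp_pos _).le
  · exact le_rfl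

lemma cF_le (h : Vec d) (F : Finset (Pool.Agent.W_MP_7d29a1_pr.Site d)) (m : ℕ)
    (s : Fin m → Step d) : cF h F m s ≤ U5.cw h m s := by
  unfold cF
  split_ifs
  · exact le_rfl
  · exact (Real.exp_pos _).le

lemma ZF_pr (β : ℝ) (h : Vec d) (F : Finset (Pool.Agent.W_MP_7d29a1_pr.Site d)) (m : ℕ)
    (η : Env d) : C5.Z β (cF h F m) U5.At (U5.pr d m η) = ∑ y ∈ F, PP β h η m y := by
  classical
  unfold C5.Z C5.T PP ZT wgt cF U5.cw
  rw [Finset.sum_comm]
  refine Finset.sum_congr rfl fun s _ => ?_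
  rw [U5.sum_At]
  by_cases hs : pos s m ∈ F
  · rw [if_pos hs, Finset.sum_eq_single (pos s m)]
    · rw [if_pos (show s ∈ {r : Fin m → Step d | pos r m = pos s m} from rfl), Real.exp_add]
    · intro y _ hy
      rw [if_neg]
      intro h1
      exact hy h1.symm
    · intro h1
      exact absurd hs h1
  · rw [if_neg hs, zero_mul]
    symm
    refine Finset.sum_eq_zero fun y hy => if_neg ?_
    intro h1
    have h2 : pos s m = y := h1
    rw [h2] at hs
    exact hs hy

lemma V_F (β : ℝ) (h : Vec d) (F : Finset (Pool.Agent.W_MP_7d29a1_pr.Site d)) (m : ℕ)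
    (s₀ : ℝ) (η : Env d) (hpos : 0 < ∑ y ∈ F, PP β h η m y) :
    C5.V β (cF h F m) U5.At s₀ (U5.pr d m η) = Real.log (1 + Real.exp (UF β h F m η - s₀)) := by
  unfold C5.V C5.Dn
  rw [ZF_pr, sub_eq_add_neg, Real.exp_add]
  unfold UF
  rw [Real.exp_log hpos]

lemma meas_UF (β : ℝ) (h : Vec d) (F : Finset (Pool.Agent.W_MP_7d29a1_pr.Site d)) (m : ℕ) :
    Measurable (UF β h F m) :=
  Real.measurable_log.comp (Finset.measurable_sum _ fun y _ => measurable_ZT β h _)

lemma UF_le (hd : 0 < d) (β : ℝ) (h : Vec d) (F : Finset (Pool.Agent.W_MP_7d29a1_pr.Site d))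
    (m : ℕ) (η : Env d) (hpos : 0 < ∑ y ∈ F, PP β h η m y) : UF β h F m η ≤ X β h η m := by
  refine Real.log_le_log hpos ?_
  rw [← ZF_pr, ← U5.Z_pr]
  unfold C5.Z C5.T
  exact Finset.sum_le_sum fun s _ => mul_le_mul_of_nonneg_right (cF_le h F m s) (Real.exp_pos _).le

lemma int_UF (hd : 0 < d) {ρ : Measure ℝ} [IsProbabilityMeasure ρ] (hρ : EM ρ) (β : ℝ)
    (h : Vec d) (F : Finset (Pool.Agent.W_MP_7d29a1_pr.Site d)) (m : ℕ)
    (hpos : ∀ η : Env d, 0 < ∑ y ∈ F, PP β h η m y) : Integrable (UF β h F m) (law d ρ) := by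
  obtain ⟨s, hs⟩ : ∃ s : Fin m → Step d, pos s m ∈ F := by
    by_contra hcon
    push Not at hcon
    have h1 := hpos 0
    rw [← ZF_pr] at h1
    unfold C5.Z C5.T at h1
    rw [Finset.sum_eq_zero] at h1
    · exact lt_irrefl _ h1
    · intro s _
      unfold cF
      rw [if_neg (hcon s), zero_mul]
  have hX : Integrable (fun η => X β h η m) (law d ρ) := (concU hd hρ β h m).1
  have hE := (Pool.Agent.W_7d29a1_V.Conc42_energy (d := d) hρ s).1
  have hE2 : Integrable (fun η : Env d => inner ℝ h (emb (pos s m)) + β * energy η s)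
      (law d ρ) := (integrable_const _).add (hE.const_mul β)
  refine Integrable.mono' (hX.abs.add hE2.abs) (meas_UF β h F m).aestronglyMeasurable
    (Eventually.of_forall fun η => ?_)
  have h1 := UF_le hd β h F m η (hpos η)
  have h2 : inner ℝ h (emb (pos s m)) + β * energy η s ≤ UF β h F m η := by
    unfold UF
    rw [Real.le_log_iff_exp_le (hpos η), ← ZF_pr]
    unfold C5.Z
    have h3 : Real.exp (inner ℝ h (emb (pos s m)) + β * energy η s) =
        C5.T β (cF h F m) U5.At s (U5.pr d m η) := by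
      unfold C5.T cF U5.cw
      rw [if_pos hs, U5.sum_At, Real.exp_add]
    rw [h3]
    refine Finset.single_le_sum (f := fun k => C5.T β (cF h F m) U5.At k (U5.pr d m η))
      (fun k _ => ?_) (Finset.mem_univ s)
    exact mul_nonneg (cF0 h F m k) (Real.exp_pos _).le
  rw [Real.norm_eq_abs]
  show |UF β h F m η| ≤ |X β h η m| + |inner ℝ h (emb (pos s m)) + β * energy η s|
  have a1 := le_abs_self (X β h η m)
  have a2 := neg_abs_le (inner ℝ h (emb (pos s m)) + β * energy η s)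
  have a3 := abs_nonneg (X β h η m)
  have a4 := abs_nonneg (inner ℝ h (emb (pos s m)) + β * energy η s)
  rw [abs_le]
  constructor <;> linarith

/-- The transfer of the law. -/
lemma lawF {ρ : Measure ℝ} [IsProbabilityMeasure ρ] {β : ℝ} (hβ : 0 ≤ β) (h : Vec d)
    (F : Finset (Pool.Agent.W_MP_7d29a1_pr.Site d)) (m : ℕ) (s₀ : ℝ)
    (hpos : ∀ η : Env d, 0 < ∑ y ∈ F, PP β h η m y) (T : Set ℝ) (hT : MeasurableSet T) :
    (PN ρ (U5.Nn d m)).real {y | C5.V β (cF h F m) U5.At s₀ y ∈ T} =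
      (law d ρ).real {η | Real.log (1 + Real.exp (UF β h F m η - s₀)) ∈ T} := by
  have mV := (cls5 hβ (cF0 h F m) U5.At s₀).meas
  have mS : MeasurableSet {y | C5.V β (cF h F m) U5.At s₀ y ∈ T} := mV hT
  rw [← U5.law_pr, map_measureReal_apply (U5.meas_pr m) mS]
  congr 1
  ext η
  show C5.V β (cF h F m) U5.At s₀ (U5.pr d m η) ∈ T ↔ _
  rw [V_F β h F m s₀ η (hpos η)]
  rfl

/-- Amplification of a restricted free energy, every law. -/
lemma ampF {ρ : Measure ℝ} [IsProbabilityMeasure ρ] {β : ℝ} (hβ : 0 ≤ β) (hA : AmpCN ρ β)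
    (t : ℝ) (ht : 1 ≤ t) : ∃ C : ℝ, 1 ≤ C ∧
  ∀ (h : Vec d) (m : ℕ) (F : Finset (Pool.Agent.W_MP_7d29a1_pr.Site d)) (s₀ s₁ q : ℝ),
    (∀ η : Env d, 0 < ∑ y ∈ F, PP β h η m y) → 0 < q → q ≤ 1 / 2 →
    C * (1 + Real.log (1 / q)) ≤ s₁ - s₀ → q ≤ (law d ρ).real {η | UF β h F m η ≤ s₀} →
    q ≤ (law d ρ).real {η | s₁ < UF β h F m η} →
      q ^ C ≤ (law d ρ).real {η | s₁ + t * (s₁ - s₀) < UF β h F m η} := by
  obtain ⟨C, hC1, hC⟩ := hA (t + 3) (by linarith)
  refine ⟨3 * C, by linarith, fun h m F s₀ s₁ q hpos hq hq2 hs h0 h1 => ?_⟩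
  set s := s₁ - s₀ with hs'
  have hlq : 0 ≤ Real.log (1 / q) := Real.log_nonneg (by rw [le_div_iff₀ hq]; linarith)
  have hs3 : 3 ≤ s := by nlinarith
  have e0 := lawF (ρ := ρ) hβ h F m s₀ hpos (Set.Iic (Real.log 2)) measurableSet_Iic
  have e1 := lawF (ρ := ρ) hβ h F m s₀ hpos (Set.Ici s) measurableSet_Ici
  have e2 := lawF (ρ := ρ) hβ h F m s₀ hpos (Set.Ici ((t + 3) * s)) measurableSet_Ici
  simp only [Set.mem_Iic, Set.mem_Ici] at e0 e1 e2
  have hCs : C * (1 + Real.log (1 / q)) ≤ s := by nlinarith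
  have key := hC (U5.Nn d m) (C5.V β (cF h F m) U5.At s₀) (C5.P β (cF h F m) U5.At s₀)
    (cls5 hβ (cF0 h F m) U5.At s₀) q s hq hq2 hCs ?_ ?_
  · have h2 : q ^ C ≤ (law d ρ).real {η | s₁ + t * s < UF β h F m η} := by
      refine key.trans ?_
      rw [e2]
      refine measureReal_mono fun η
        (hη : (t + 3) * s ≤ Real.log (1 + Real.exp (UF β h F m η - s₀))) => ?_
      show s₁ + t * s < UF β h F m η
      have h3 := U5.log_le (UF β h F m η - s₀)
      have h4 := Real.log_two_lt_d9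
      have h5 : (t + 3) * s - 1 < max (UF β h F m η - s₀) 0 := by linarith
      rcases le_total (UF β h F m η - s₀) 0 with h6 | h6
      · rw [max_eq_right h6] at h5
        nlinarith
      · rw [max_eq_left h6] at h5
        nlinarith
    refine le_trans ?_ h2
    exact Real.rpow_le_rpow_of_exponent_ge hq (by linarith) (by linarith)
  · rw [e0]
    refine h0.trans ?_
    refine measureReal_mono fun η (hη : UF β h F m η ≤ s₀) => ?_
    show Real.log (1 + Real.exp (UF β h F m η - s₀)) ≤ Real.log 2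
    apply Real.log_le_log (by positivity)
    have : Real.exp (UF β h F m η - s₀) ≤ 1 := Real.exp_le_one_iff.2 (by linarith)
    linarith
  · rw [e1]
    refine h1.trans ?_
    refine measureReal_mono fun η (hη : s₁ < UF β h F m η) => ?_
    show s ≤ Real.log (1 + Real.exp (UF β h F m η - s₀))
    rw [Real.le_log_iff_exp_le (by positivity)]
    have : Real.exp s ≤ Real.exp (UF β h F m η - s₀) := Real.exp_le_exp.2 (by rw [hs']; linarith)
    linarith

/-- The lower tail of a restricted free energy, every law. -/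
lemma deepF {ρ : Measure ℝ} [IsProbabilityMeasure ρ] {β : ℝ} (hβ : 0 ≤ β) (hA : DeepC ρ β) :
    ∃ C c : ℝ, 1 ≤ C ∧ 0 < c ∧ ∀ (h : Vec d) (m : ℕ)
      (F : Finset (Pool.Agent.W_MP_7d29a1_pr.Site d)) (s₀ s₁ a q : ℝ),
      (∀ η : Env d, 0 < ∑ y ∈ F, PP β h η m y) → 0 < q → q ≤ 1 → C ≤ a →
      q ≤ (law d ρ).real {η | UF β h F m η ≤ s₀} →
      1 / 4 ≤ (law d ρ).real {η | s₁ < UF β h F m η} →
      (law d ρ).real {η | s₁ + a < UF β h F m η} < c →
        s₁ - s₀ ≤ C * (a * Real.sqrt (1 + Real.log (1 / q)) + (1 + Real.log (1 / q))) := by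
  obtain ⟨C, c, hC1, hc0, hC⟩ := hA
  refine ⟨2 * C, c, by linarith, hc0, fun h m F s₀ s₁ a q hpos hq hq1 ha h0 h1 hcon => ?_⟩
  obtain ⟨s, hs⟩ : ∃ s : ℝ, s = s₁ - s₀ := ⟨_, rfl⟩
  rw [← hs]
  have hlq : 0 ≤ Real.log (1 / q) := Real.log_nonneg (by rw [le_div_iff₀ hq]; linarith)
  have e0 := lawF (ρ := ρ) hβ h F m s₀ hpos (Set.Iic (Real.log 2)) measurableSet_Iic
  have e1 := lawF (ρ := ρ) hβ h F m s₀ hpos (Set.Ici s) measurableSet_Ici
  have e2 := lawF (ρ := ρ) hβ h F m s₀ hpos (Set.Ioi (s + (a + 1))) measurableSet_Ioi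
  simp only [Set.mem_Iic, Set.mem_Ici, Set.mem_Ioi] at e0 e1 e2
  have ha1 : 1 ≤ a := by linarith
  by_cases hs0 : s < 0
  · have : 0 ≤ 2 * C * (a * Real.sqrt (1 + Real.log (1 / q)) + (1 + Real.log (1 / q))) := by
      positivity
    linarith
  rw [not_lt] at hs0
  have key := hC (U5.Nn d m) (C5.V β (cF h F m) U5.At s₀) (C5.P β (cF h F m) U5.At s₀)
    (cls5 hβ (cF0 h F m) U5.At s₀) q s (a + 1) hq hq1 (by linarith) ?_ ?_ ?_
  · refine key.trans ?_
    have h2 : 0 ≤ Real.sqrt (1 + Real.log (1 / q)) := Real.sqrt_nonneg _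
    have h3 : (a + 1) * Real.sqrt (1 + Real.log (1 / q)) ≤
        2 * a * Real.sqrt (1 + Real.log (1 / q)) := mul_le_mul_of_nonneg_right (by linarith) h2
    have h4 : 2 * C * (a * Real.sqrt (1 + Real.log (1 / q)) + (1 + Real.log (1 / q))) =
        C * (2 * a * Real.sqrt (1 + Real.log (1 / q)) + 2 * (1 + Real.log (1 / q))) := by ring
    rw [h4]
    exact mul_le_mul_of_nonneg_left (by linarith) (by linarith)
  · rw [e0]
    refine h0.trans ?_
    refine measureReal_mono fun η (hη : UF β h F m η ≤ s₀) => ?_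
    show Real.log (1 + Real.exp (UF β h F m η - s₀)) ≤ Real.log 2
    apply Real.log_le_log (by positivity)
    have : Real.exp (UF β h F m η - s₀) ≤ 1 := Real.exp_le_one_iff.2 (by linarith)
    linarith
  · rw [e1]
    refine h1.trans ?_
    refine measureReal_mono fun η (hη : s₁ < UF β h F m η) => ?_
    show s ≤ Real.log (1 + Real.exp (UF β h F m η - s₀))
    rw [Real.le_log_iff_exp_le (by positivity)]
    have : Real.exp s ≤ Real.exp (UF β h F m η - s₀) := Real.exp_le_exp.2 (by rw [hs]; linarith)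
    linarith
  · rw [e2]
    refine le_trans (measureReal_mono fun η
      (hη : s + (a + 1) < Real.log (1 + Real.exp (UF β h F m η - s₀))) => ?_) hcon.le
    show s₁ + a < UF β h F m η
    have h3 := U5.log_le (UF β h F m η - s₀)
    have h4 := Real.log_two_lt_d9
    have h5 : s + a < max (UF β h F m η - s₀) 0 := by linarith
    rcases le_total (UF β h F m η - s₀) 0 with h6 | h6
    · rw [max_eq_right h6] at h5
      linarith
    · rw [max_eq_left h6] at h5
      linarith

/-- An exponential tail controls the mean. -/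
lemma exc81 {Ω : Type*} [MeasurableSpace Ω] (P : Measure Ω) [IsProbabilityMeasure P] {Y : Ω → ℝ}
    (hi : Integrable Y P) {s B : ℝ} (hB : 0 < B)
    (h2 : ∀ t : ℝ, 0 < t → P.real {ω | Y ω ≤ s - t} ≤ Real.exp (1 - t / B)) :
    s - 3 * B ≤ ∫ ω, Y ω ∂P := by
  have hf : Integrable (fun ω => max (s - Y ω) 0) P :=
    ((integrable_const s).sub hi).sup (integrable_const 0)
  have hneg : -(1 / B) < 0 := by
    have : 0 < 1 / B := by positivity
    linarith
  have hint : IntegrableOn (fun t : ℝ => Real.exp 1 * Real.exp (-(1 / B) * t)) (Set.Ioi 0) :=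
    (integrableOn_exp_mul_Ioi hneg 0).const_mul _
  have hval : ∫ t in Set.Ioi (0 : ℝ), Real.exp 1 * Real.exp (-(1 / B) * t) = Real.exp 1 * B := by
    rw [integral_const_mul, integral_exp_mul_Ioi hneg]
    rw [mul_zero, Real.exp_zero]
    field_simp
  have h5 : ∫ ω, max (s - Y ω) 0 ∂P ≤ Real.exp 1 * B := by
    rw [hf.integral_eq_integral_meas_lt (Eventually.of_forall fun w => le_max_right _ _), ← hval]
    refine integral_mono_of_nonneg (Eventually.of_forall fun t => measureReal_nonneg) hint ?_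
    filter_upwards [ae_restrict_mem measurableSet_Ioi] with t ht
    have ht0 : (0 : ℝ) < t := ht
    have e : Real.exp (1 - t / B) = Real.exp 1 * Real.exp (-(1 / B) * t) := by
      rw [← Real.exp_add]
      congr 1
      ring
    rw [← e]
    refine (measureReal_mono ?_).trans (h2 t ht0)
    intro w hw
    have hw1 : t < max (s - Y w) 0 := hw
    show Y w ≤ s - t
    rcases lt_max_iff.1 hw1 with h6 | h6
    · linarith
    · linarith
  have h6 : ∫ ω, (s - max (s - Y ω) 0) ∂P ≤ ∫ ω, Y ω ∂P := by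
    refine integral_mono ((integrable_const s).sub hf) hi fun ω => ?_
    have := le_max_left (s - Y ω) 0
    show s - max (s - Y ω) 0 ≤ Y ω
    linarith
  rw [integral_sub (integrable_const s) hf, integral_const, probReal_univ, one_smul] at h6
  have h7 : Real.exp 1 < 3 := lt_trans Real.exp_one_lt_d9 (by norm_num)
  have h8 : Real.exp 1 * B ≤ 3 * B := mul_le_mul_of_nonneg_right h7.le hB.le
  linarith

/-- The second moment. -/
lemma chebX (hd : 0 < d) {ρ : Measure ℝ} [IsProbabilityMeasure ρ] (hρ : EM ρ) (β : ℝ) (h : Vec d)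
    (m : ℕ) {u : ℝ} (hu : 0 < u) :
    (law d ρ).real {η | A ρ β h m + u < X β h η m} ≤ Va ρ β h m / u ^ 2 := by
  have hI := integrable_cen13 hd hρ β h m
  have h2 := mul_meas_ge_le_integral_of_nonneg (μ := law d ρ)
    (f := fun η => (X β h η m - A ρ β h m) ^ 2) (Eventually.of_forall fun η => sq_nonneg _)
    hI (u ^ 2)
  have h3 : (law d ρ).real {η | A ρ β h m + u < X β h η m} ≤
      (law d ρ).real {η | u ^ 2 ≤ (X β h η m - A ρ β h m) ^ 2} := by
    refine measureReal_mono fun η (hη : A ρ β h m + u < X β h η m) => ?_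
    show u ^ 2 ≤ (X β h η m - A ρ β h m) ^ 2
    nlinarith
  rw [le_div_iff₀ (by positivity), mul_comm]
  exact (mul_le_mul_of_nonneg_left h3 (sq_nonneg u)).trans h2

/-- The median is low. -/
lemma low81 (hd : 0 < d) {ρ : Measure ℝ} [IsProbabilityMeasure ρ] (hρ : EM ρ) {β : ℝ}
    (hβ : 0 ≤ β) (hA : AmpCN ρ β) (hD : DeepC ρ β) : ∃ C : ℝ, 1 ≤ C ∧
  ∀ (h : Vec d) (m : ℕ) (F : Finset (Pool.Agent.W_MP_7d29a1_pr.Site d)) (K l : ℝ),
    1 ≤ K → C * K ≤ l → Va ρ β h m ≤ K → (∀ η : Env d, 0 < ∑ y ∈ F, PP β h η m y) →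
    ∫ η, UF β h F m η ∂(law d ρ) ≤ A ρ β h m - l →
      1 / 4 ≤ (law d ρ).real {η | UF β h F m η ≤ A ρ β h m - l / 4} := by
  obtain ⟨D, c, hD1, hc, hdeep⟩ := deepF (d := d) (ρ := ρ) hβ hD
  obtain ⟨ε, hε⟩ : ∃ ε : ℝ, ε = 1 / (64 * D) := ⟨_, rfl⟩
  have hε0 : 0 < ε := by rw [hε]; positivity
  obtain ⟨q₀, hq₀⟩ : ∃ q₀ : ℝ, q₀ = min (c / 2) (1 / 2) := ⟨_, rfl⟩
  have hq0 : 0 < q₀ := by rw [hq₀]; exact lt_min (by linarith) (by norm_num)
  have hq2 : q₀ ≤ 1 / 2 := by rw [hq₀]; exact min_le_right _ _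
  have hqc : q₀ < c := by rw [hq₀]; exact lt_of_le_of_lt (min_le_left _ _) (by linarith)
  obtain ⟨C1, hC1, hamp⟩ := ampF (d := d) (ρ := ρ) hβ hA (64 * D) (by linarith)
  have hlq : 0 ≤ Real.log (1 / q₀) := Real.log_nonneg (by rw [le_div_iff₀ hq0]; linarith)
  have hqC : 0 < q₀ ^ C1 := Real.rpow_pos_of_pos hq0 _
  obtain ⟨L0, hL0⟩ : ∃ L0 : ℝ, L0 = C1 * (1 + Real.log (1 / q₀)) := ⟨_, rfl⟩
  have hL00 : 0 ≤ L0 := by rw [hL0]; positivity
  obtain ⟨W, hW⟩ : ∃ W : ℝ, W = 16 / q₀ ^ C1 := ⟨_, rfl⟩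
  have hW0 : 0 < W := by rw [hW]; positivity
  refine ⟨64 * D * D + 128 * D + 128 * D * L0 + W + 65, by nlinarith, ?_⟩
  intro h m F K l hK hl hV hpos hE
  have hDD : 0 ≤ D * D := by positivity
  have hDL : 0 ≤ D * L0 := by positivity
  have hl' : 64 * D * D + 128 * D + 128 * D * L0 + W + 65 ≤ l := by
    refine le_trans ?_ hl
    refine le_mul_of_one_le_right (by nlinarith) hK
  have hl65 : 65 ≤ l := by nlinarith
  have hKl : K ≤ l := by
    refine le_trans ?_ hl
    refine le_mul_of_one_le_left (by linarith) (by nlinarith)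
  have hεl : ε * l = l / (64 * D) := by rw [hε]; ring
  have h64 : 64 * D * (ε * l) = l := by rw [hεl]; field_simp
  by_contra hcon
  push Not at hcon
  obtain ⟨M, hM1, hM2, hM3⟩ := Pool.Agent.W_7d29a1_UC.median31 (law d ρ) (meas_UF β h F m)
    (s₀ := A ρ β h m - l / 4) (by linarith)
  -- the upper side
  have hside : 1 / 4 ≤ (law d ρ).real {η | M - 1 < UF β h F m η} := by
    have h1 := hM3 (M - 1) (by linarith)
    have h2 : {η | M - 1 < UF β h F m η} = {η | UF β h F m η ≤ M - 1}ᶜ := by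
      ext η
      simp
    rw [h2, probReal_compl_eq_one_sub (measurableSet_le (meas_UF β h F m) measurable_const)]
    linarith
  -- the upper tail
  have hεl1 : 2 * L0 ≤ ε * l ∧ D ≤ ε * l ∧ 2 ≤ ε * l := by
    have h1 : 64 * D * D ≤ 64 * D * (ε * l) := by rw [h64]; nlinarith
    have h2 : 64 * D * (2 * L0) ≤ 64 * D * (ε * l) := by rw [h64]; nlinarith
    have h3 : 64 * D * 2 ≤ 64 * D * (ε * l) := by rw [h64]; nlinarith
    have h4 : 0 < 64 * D := by linarith
    exact ⟨le_of_mul_le_mul_left h2 h4, le_of_mul_le_mul_left h1 h4, le_of_mul_le_mul_left h3 h4⟩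
  obtain ⟨g1, g2, g3⟩ := hεl1
  have hup : (law d ρ).real {η | M - 1 + ε * l < UF β h F m η} < c := by
    refine lt_of_le_of_lt (b := q₀) ?_ hqc
    by_contra hq
    push Not at hq
    have h1 : q₀ ≤ (law d ρ).real {η | M + ε * l / 2 < UF β h F m η} := by
      refine hq.le.trans (measureReal_mono fun η (hη : M - 1 + ε * l < UF β h F m η) => ?_)
      show M + ε * l / 2 < UF β h F m η
      linarith
    have h2 := hamp h m F M (M + ε * l / 2) q₀ hpos hq0 hq2 (by rw [← hL0]; linarith)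
      (by linarith) h1
    have h3 : M + ε * l / 2 + 64 * D * (M + ε * l / 2 - M) = M + ε * l / 2 + l / 2 := by
      have : 64 * D * (M + ε * l / 2 - M) = (64 * D * (ε * l)) / 2 := by ring
      rw [this, h64]
    rw [h3] at h2
    have h4 : (law d ρ).real {η | M + ε * l / 2 + l / 2 < UF β h F m η} ≤
        (law d ρ).real {η | A ρ β h m + l / 4 < X β h η m} := by
      refine measureReal_mono fun η (hη : M + ε * l / 2 + l / 2 < UF β h F m η) => ?_
      show A ρ β h m + l / 4 < X β h η m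
      have := UF_le hd β h F m η (hpos η)
      linarith
    have h5 := chebX hd hρ β h m (u := l / 4) (by linarith)
    have h6 : Va ρ β h m / (l / 4) ^ 2 ≤ 16 / l := by
      rw [div_le_div_iff₀ (by positivity) (by linarith)]
      nlinarith
    have h7 : 16 / l < q₀ ^ C1 := by
      rw [div_lt_iff₀ (by linarith)]
      have h8 : W < l := by nlinarith
      have h9 : q₀ ^ C1 * W = 16 := by rw [hW]; field_simp
      nlinarith
    linarith
  -- the lower tail
  obtain ⟨B, hB⟩ : ∃ B : ℝ, B = D * (ε * l + 1) := ⟨_, rfl⟩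
  have hB0 : 0 < B := by rw [hB]; positivity
  have htail : ∀ t : ℝ, 0 < t → (law d ρ).real {η | UF β h F m η ≤ M - 1 - t} ≤
      Real.exp (1 - t / B) := by
    intro t ht
    obtain ⟨q, hq⟩ : ∃ q : ℝ, q = (law d ρ).real {η | UF β h F m η ≤ M - 1 - t} := ⟨_, rfl⟩
    rw [← hq]
    rcases le_or_gt q 0 with h0 | h0
    · exact h0.trans (Real.exp_pos _).le
    have hq1 : q ≤ 1 := by rw [hq]; exact measureReal_le_one
    have h1 := hdeep h m F (M - 1 - t) (M - 1) (ε * l) q hpos h0 hq1 g2 hq.le hside hup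
    have hlq1 : 0 ≤ Real.log (1 / q) := Real.log_nonneg (by rw [le_div_iff₀ h0]; linarith)
    have h2 : Real.sqrt (1 + Real.log (1 / q)) ≤ 1 + Real.log (1 / q) := by
      rw [Real.sqrt_le_left (by linarith)]
      nlinarith
    have h3 : M - 1 - (M - 1 - t) = t := by ring
    rw [h3] at h1
    have h4 : t ≤ B * (1 + Real.log (1 / q)) := by
      refine h1.trans ?_
      rw [hB]
      have h5 := mul_le_mul_of_nonneg_left h2 (show 0 ≤ ε * l by linarith)
      have h6 := mul_le_mul_of_nonneg_left h5 (show 0 ≤ D by linarith)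
      nlinarith
    have h5 : t / B ≤ 1 + Real.log (1 / q) := by
      rw [div_le_iff₀ hB0]
      linarith
    have h6 : Real.log (1 / q) = - Real.log q := by rw [one_div, Real.log_inv]
    rw [← Real.exp_log h0]
    apply Real.exp_le_exp.2
    linarith
  have hmean := exc81 (law d ρ) (int_UF hd hρ β h F m hpos) hB0 htail
  have hB3 : 3 * B ≤ l / 8 := by
    have h1 : D * (ε * l) = l / 64 := by linarith
    have h2 : B = l / 64 + D := by rw [hB]; linarith
    rw [h2]
    nlinarith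
  linarith

end E81

open E81 in
/-- **EHRU for every law**, over the amplification and the lower tail in the class. -/
theorem ehrUC81 {d : ℕ} (hd : 0 < d) {ρ : Measure ℝ} [IsProbabilityMeasure ρ] (hρ : EM ρ) {β : ℝ}
    (hβ : 0 ≤ β) (hA : AmpCN ρ β) (hD : DeepC ρ β) : EhrU d ρ β := by
  obtain ⟨C2, hC2, hlow⟩ := low81 (d := d) hd hρ hβ hA hD
  obtain ⟨C3, hC3, hamp⟩ := ampF (d := d) (ρ := ρ) hβ hA 3 (by norm_num)
  refine ⟨C2 + 96 * C3 + 64, by linarith, ?_⟩
  intro h m F K l hK hl hV hpos hE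
  obtain ⟨C, hC⟩ : ∃ C : ℝ, C = C2 + 96 * C3 + 64 := ⟨_, rfl⟩
  rw [← hC] at hl ⊢
  have hC64 : 64 ≤ C := by linarith
  have hC0 : 0 < C := by linarith
  have hl64 : 64 ≤ l := by nlinarith
  have hl0 : 0 < l := by linarith
  have hlK : K ≤ l := by nlinarith
  have hK0 : 0 < K := by linarith
  have h1 := hlow h m F K l hK (le_trans (mul_le_mul_of_nonneg_right (by linarith) hK0.le) hl)
    hV hpos hE
  have hx0 : 0 < K / l := by positivity
  have hx1 : K / l ≤ 1 := by rw [div_le_one hl0]; exact hlK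
  have hR : 0 ≤ C * (K / l) ^ (1 / C) := by positivity
  obtain ⟨p, hp⟩ : ∃ p : ℝ, p = (law d ρ).real {η | A ρ β h m - l / 8 < UF β h F m η} := ⟨_, rfl⟩
  have hpp : (law d ρ).real {η | A ρ β h m - l / C < UF β h F m η} ≤ p := by
    rw [hp]
    refine measureReal_mono fun η (hη : A ρ β h m - l / C < UF β h F m η) => ?_
    show A ρ β h m - l / 8 < UF β h F m η
    have : l / C ≤ l / 8 := div_le_div_of_nonneg_left hl0.le (by norm_num) (by linarith)
    linarith
  refine hpp.trans ?_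
  rcases le_or_gt p 0 with h0 | h0
  · exact h0.trans hR
  have hp1 : p ≤ 1 := by rw [hp]; exact measureReal_le_one
  obtain ⟨q, hq⟩ : ∃ q : ℝ, q = min p (1 / 4) := ⟨_, rfl⟩
  have hq0 : 0 < q := by rw [hq]; exact lt_min h0 (by norm_num)
  have hqp : q ≤ p := by rw [hq]; exact min_le_left _ _
  have hq4 : q ≤ 1 / 4 := by rw [hq]; exact min_le_right _ _
  have hpq : p ≤ 4 * q := by
    rw [hq]
    rcases min_choice p (1 / 4) with h2 | h2
    · rw [h2]; linarith
    · rw [h2]; linarith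
  -- powers of `K / l`
  have hmono : ∀ a : ℝ, 1 ≤ a → a ≤ C → (K / l) ^ (1 / a) ≤ (K / l) ^ (1 / C) := fun a ha haC =>
    Real.rpow_le_rpow_of_exponent_ge hx0 hx1 (one_div_le_one_div_of_le (by linarith) haC)
  have hR1 : 0 ≤ (K / l) ^ (1 / C) := Real.rpow_nonneg hx0.le _
  by_cases hlog : C3 * (1 + Real.log (1 / q)) ≤ l / 8
  · have h2 := hamp h m F (A ρ β h m - l / 4) (A ρ β h m - l / 8) q hpos hq0 (by linarith)
      (by linarith) (hq4.trans h1) (by rw [← hp]; exact hqp)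
    have h3 : (law d ρ).real {η | A ρ β h m - l / 8 + 3 * (A ρ β h m - l / 8 -
        (A ρ β h m - l / 4)) < UF β h F m η} ≤ (law d ρ).real {η | A ρ β h m + l / 4 < X β h η m} := by
      refine measureReal_mono fun η (hη : A ρ β h m - l / 8 + 3 * (A ρ β h m - l / 8 -
        (A ρ β h m - l / 4)) < UF β h F m η) => ?_
      show A ρ β h m + l / 4 < X β h η m
      have := UF_le hd β h F m η (hpos η)
      linarith
    have h5 := chebX hd hρ β h m (u := l / 4) (by linarith)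
    have h6 : Va ρ β h m / (l / 4) ^ 2 ≤ 16 * (K / l) := by
      rw [div_le_iff₀ (by positivity)]
      have e : 16 * (K / l) * (l / 4) ^ 2 = K * l := by
        field_simp
        ring
      rw [e]
      nlinarith
    have h7 : q ^ C3 ≤ 16 * (K / l) := by linarith
    have h8 : q ≤ (16 * (K / l)) ^ (1 / C3) := by
      have h9 := Real.rpow_le_rpow (Real.rpow_nonneg hq0.le _) h7
        (show (0 : ℝ) ≤ 1 / C3 by positivity)
      rwa [← Real.rpow_mul hq0.le, mul_one_div_cancel (by linarith), Real.rpow_one] at h9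
    have h9 : (16 * (K / l)) ^ (1 / C3) ≤ 16 * (K / l) ^ (1 / C) := by
      rw [Real.mul_rpow (by norm_num) hx0.le]
      refine mul_le_mul ?_ (hmono C3 hC3 (by linarith)) (Real.rpow_nonneg hx0.le _) (by norm_num)
      calc (16 : ℝ) ^ (1 / C3) ≤ 16 ^ (1 : ℝ) := Real.rpow_le_rpow_of_exponent_le (by norm_num)
            (by rw [div_le_one (by linarith)]; exact hC3)
        _ = 16 := Real.rpow_one _
    nlinarith
  · push Not at hlog
    have h2 : l / (8 * C3) < 1 + Real.log (1 / q) := by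
      rw [div_lt_iff₀ (by positivity)]
      linarith
    have h3 : Real.log (1 / q) = - Real.log q := by rw [one_div, Real.log_inv]
    obtain ⟨y, hy⟩ : ∃ y : ℝ, y = l / (8 * C3) := ⟨_, rfl⟩
    have hy0 : 0 < y := by rw [hy]; positivity
    have h4 : q ≤ Real.exp 1 * Real.exp (-y) := by
      rw [← Real.exp_add, ← Real.exp_log hq0]
      apply Real.exp_le_exp.2
      rw [hy]
      linarith
    have h5 : Real.exp (-y) ≤ 1 / y := by
      rw [Real.exp_neg, ← one_div]
      exact one_div_le_one_div_of_le hy0 (by linarith [Real.add_one_le_exp y])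
    have h6 : Real.exp 1 < 3 := lt_trans Real.exp_one_lt_d9 (by norm_num)
    have h7 : q ≤ 3 * (1 / y) := h4.trans (mul_le_mul h6.le h5 (Real.exp_pos _).le (by norm_num))
    have h8 : 1 / y = 8 * C3 / l := by rw [hy, one_div_div]
    have h9 : 1 / l ≤ K / l := div_le_div_of_nonneg_right hK hl0.le
    have h10 := hmono 1 le_rfl (by linarith)
    rw [div_one, Real.rpow_one] at h10
    have h11 : 3 * (1 / y) = 24 * C3 * (1 / l) := by rw [h8]; ring
    rw [h11] at h7
    have h12 : 24 * C3 * (1 / l) ≤ 24 * C3 * (K / l) ^ (1 / C) :=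
      mul_le_mul_of_nonneg_left (h9.trans h10) (by positivity)
    have h13 : 96 * C3 * (K / l) ^ (1 / C) ≤ C * (K / l) ^ (1 / C) :=
      mul_le_mul_of_nonneg_right (by linarith) hR1
    linarith

/-- **EHRU for every law**, no hypothesis left. -/
theorem ehrU81 {d : ℕ} (hd : 0 < d) {ρ : Measure ℝ} [IsProbabilityMeasure ρ] (hρ : EM ρ)
    (hnc : ∀ c : ℝ, ρ {c} ≠ 1) {β : ℝ} (hβ : 0 < β) : EhrU d ρ β :=
  ehrUC81 hd hρ hβ.le (ampCNAll5 hρ hnc hβ) (deepCAll5 hρ hnc hβ)

end Pool.Agent.W_7d29a1_OT
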