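import Pool.Agent.W_7d29a1_OT.DefsOT
import Pool.Agent.W_7d29a1_PL.BudP67

/-!
The budget at one tilt (helper96), after the budget of `W_7d29a1_PL` (helper67).
-/

namespace Pool.Agent.W_7d29a1_OT

open MeasureTheory ProbabilityTheory Filter Topology Pool.Agent.W_MP_7d29a1_pr
  Pool.Agent.W_7d29a1_h46 Pool.Agent.W_7d29a1_h46u Pool.Agent.W_7d29a1_D2.B35
  Pool.Agent.W_7d29a1_Q29 Pool.Agent.W_7d29a1_R34 Pool.Agent.W_7d29a1_SP Pool.Agent.W_7d29a1_PL

namespace O96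

/-- A negative power is eventually small. -/
lemma small (p ε : ℝ) (hp : p < 0) (hε : 0 < ε) : ∀ᶠ n : ℕ in atTop, (n : ℝ) ^ p ≤ ε := by
  have h1 : Tendsto (fun n : ℕ => (n : ℝ) ^ p) atTop (𝓝 0) := by
    have h2 := (tendsto_rpow_neg_atTop (y := -p) (by linarith)).comp tendsto_natCast_atTop_atTop
    refine h2.congr fun n => ?_
    simp
  exact (h1.eventually (gt_mem_nhds hε)).mono fun n hn => hn.le

/-- The numbers. -/
lemma num96 {C CL M δ a c : ℝ} (hC : 1 ≤ C) (hCL : 1 ≤ CL) (hM : 0 < M) (hδ : 0 < δ)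
    (ha : 0 < a) (ha1 : a ≤ 1 / 8) (hc : 0 < c) (hca : 8 * c ≤ a) :
    ∃ n₀ : ℕ, 1000 ≤ n₀ ∧ ∀ n : ℕ, n₀ ≤ n →
      (n : ℝ) ^ (-(1 / 2) + a / 4) ≤ δ ∧ CL * (n : ℝ) ^ c ≤ (n : ℝ) ^ (3 * a / 4) ∧
      CL ≤ n ∧ M * (n : ℝ) ^ (a / 2) + 2 * (n : ℝ) ^ c ≤ (n : ℝ) ^ (3 * a / 4) / 2 ∧
      CL * ((n : ℝ) ^ c / (n : ℝ) ^ (3 * a / 4)) ^ (1 / CL) + CL / n ≤ 1 / 8 ∧
      Real.log (2 + 2 * (3600 * C * (n : ℝ) ^ c * (n : ℝ) ^ a)) ≤ 2 * (a * Real.log n) := by
  obtain ⟨G, hG⟩ : ∃ G, G = 2 + 7200 * C := ⟨_, rfl⟩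
  have hG0 : 1 ≤ G := by rw [hG]; linarith
  have e1 := small (-(1 / 2) + a / 4) δ (by linarith) hδ
  have e2 := small (c - 3 * a / 4) (1 / CL) (by linarith) (by positivity)
  have e3 : ∀ᶠ n : ℕ in atTop, CL ≤ (n : ℝ) := tendsto_natCast_atTop_atTop.eventually_ge_atTop CL
  have e4 := small (a / 2 - 3 * a / 4) (1 / (4 * M)) (by linarith) (by positivity)
  have e5 := small (c - 3 * a / 4) (1 / 8) (by linarith) (by norm_num)
  have e6 := small ((c - 3 * a / 4) * (1 / CL)) (1 / (16 * CL))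
    (mul_neg_of_neg_of_pos (by linarith) (by positivity)) (by positivity)
  have e7 : ∀ᶠ n : ℕ in atTop, 16 * CL ≤ (n : ℝ) :=
    tendsto_natCast_atTop_atTop.eventually_ge_atTop (16 * CL)
  have l2 : Tendsto (fun n : ℕ => (a - c) * Real.log (n : ℝ)) atTop atTop :=
    (Real.tendsto_log_atTop.comp tendsto_natCast_atTop_atTop).const_mul_atTop (by linarith)
  have e8 := l2.eventually_ge_atTop (Real.log G)
  obtain ⟨n₁, hn₁⟩ := eventually_atTop.1 (e1.and (e2.and (e3.and (e4.and (e5.and (e6.and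
    (e7.and e8)))))))
  refine ⟨max 1000 n₁, le_max_left _ _, fun n hn => ?_⟩
  obtain ⟨f1, f2, f3, f4, f5, f6, f7, f8⟩ := hn₁ n (le_trans (le_max_right _ _) hn)
  have hn1000 : 1000 ≤ n := le_trans (le_max_left _ _) hn
  have hn1 : (1 : ℝ) ≤ n := by exact_mod_cast (by omega : 1 ≤ n)
  have hn0 : (0 : ℝ) < n := by linarith
  have hp : 0 < (n : ℝ) ^ (3 * a / 4) := by positivity
  have hdiv : ∀ b : ℝ, (n : ℝ) ^ b = (n : ℝ) ^ (b - 3 * a / 4) * (n : ℝ) ^ (3 * a / 4) := by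
    intro b
    rw [← Real.rpow_add hn0]
    congr 1
    ring
  refine ⟨f1, ?_, f3, ?_, ?_, ?_⟩
  · rw [hdiv c]
    have h1 : CL * (n : ℝ) ^ (c - 3 * a / 4) ≤ 1 := by
      have := mul_le_mul_of_nonneg_left f2 (by linarith : 0 ≤ CL)
      have h2 : CL * (1 / CL) = 1 := by field_simp
      linarith
    have h3 := mul_le_mul_of_nonneg_right h1 hp.le
    linarith
  · rw [hdiv (a / 2), hdiv c]
    have h1 : M * (n : ℝ) ^ (a / 2 - 3 * a / 4) ≤ 1 / 4 := by
      have := mul_le_mul_of_nonneg_left f4 hM.le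
      have h2 : M * (1 / (4 * M)) = 1 / 4 := by field_simp
      linarith
    have h3 := mul_le_mul_of_nonneg_right h1 hp.le
    have h4 := mul_le_mul_of_nonneg_right f5 hp.le
    linarith
  · have h1 : (n : ℝ) ^ c / (n : ℝ) ^ (3 * a / 4) = (n : ℝ) ^ (c - 3 * a / 4) :=
      (Real.rpow_sub hn0 _ _).symm
    rw [h1, ← Real.rpow_mul hn0.le]
    have h2 : CL * (n : ℝ) ^ ((c - 3 * a / 4) * (1 / CL)) ≤ 1 / 16 := by
      have := mul_le_mul_of_nonneg_left f6 (by linarith : 0 ≤ CL)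
      have h3 : CL * (1 / (16 * CL)) = 1 / 16 := by field_simp
      linarith
    have h4 : CL / n ≤ 1 / 16 := by
      rw [div_le_iff₀ hn0]
      linarith
    linarith
  · have h1 : 2 + 2 * (3600 * C * (n : ℝ) ^ c * (n : ℝ) ^ a) ≤ G * (n : ℝ) ^ (c + a) := by
      have h2 : 1 ≤ (n : ℝ) ^ (c + a) := Real.one_le_rpow hn1 (by linarith)
      have h3 : (n : ℝ) ^ (c + a) = (n : ℝ) ^ c * (n : ℝ) ^ a := Real.rpow_add hn0 _ _
      rw [hG, h3]
      rw [h3] at h2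
      nlinarith
    have h4 : Real.log (G * (n : ℝ) ^ (c + a)) = Real.log G + (c + a) * Real.log n := by
      rw [Real.log_mul (by positivity) (by positivity), Real.log_rpow hn0]
    have h5 : 0 < 2 + 2 * (3600 * C * (n : ℝ) ^ c * (n : ℝ) ^ a) := by positivity
    refine (Real.log_le_log h5 h1).trans ?_
    rw [h4]
    linarith

end O96

open Pool.Agent.W_7d29a1_PL.B67 O96 in
/-- **BUDO.** The budget at one tilt. -/
theorem budO96 {ρ : Measure ℝ} [IsProbabilityMeasure ρ] (hρ : EM ρ) {β : ℝ} (hL : LeakO ρ β)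
    (hNP : NPB 2 ρ β) : BudO ρ β := by
  classical
  intro g₀ M hg₀ hM
  obtain ⟨C₀, hC₀, hNP⟩ := hNP
  obtain ⟨CL, hCL, hL⟩ := hL g₀ hg₀
  obtain ⟨C, hCdef⟩ : ∃ C, C = C₀ + 1 := ⟨_, rfl⟩
  have hC : 1 ≤ C := by linarith
  refine ⟨2, by norm_num, ?_⟩
  intro h δ a c hδ ha ha1 hc hca hgap hcur
  obtain ⟨n₁, hn₁, hnum⟩ := num96 (C := C) (CL := CL) (M := M) (δ := δ) (a := a) (c := c)
    hC hCL hM hδ ha ha1 hc hca
  refine ⟨n₁, fun n hn hVE => ?_⟩
  have hn1000 : 1000 ≤ n := hn₁.trans hn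
  have hnR : (1000 : ℝ) ≤ n := by exact_mod_cast hn1000
  have hn0 : (0 : ℝ) < n := by linarith
  obtain ⟨f1, f2, f3, f4, f5, f6⟩ := hnum n hn
  obtain ⟨K, hK⟩ : ∃ K, K = (n : ℝ) ^ c := ⟨_, rfl⟩
  obtain ⟨r, hr⟩ : ∃ r, r = (n : ℝ) ^ (-(1 / 2) + a / 4) := ⟨_, rfl⟩
  obtain ⟨w, hw⟩ : ∃ w, w = (n : ℝ) ^ (1 / 2 + a / 2) := ⟨_, rfl⟩
  have hr0 : 0 < r := by rw [hr]; positivity
  have hw0 : 0 < w := by rw [hw]; positivity
  have hrw : (n : ℝ) ^ (3 * a / 4) = r * w := by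
    rw [hr, hw, ← Real.rpow_add hn0]
    congr 1
    ring
  have hr2 : (n : ℝ) * r ^ 2 = (n : ℝ) ^ (a / 2) := by
    rw [hr, ← Real.rpow_natCast, ← Real.rpow_mul hn0.le]
    nth_rewrite 1 [← Real.rpow_one (n : ℝ)]
    rw [← Real.rpow_add hn0]
    congr 1
    push_cast
    ring
  have hw2 : w ^ 2 = n * (n : ℝ) ^ a := by
    rw [hw, ← Real.rpow_natCast, ← Real.rpow_mul hn0.le]
    nth_rewrite 2 [← Real.rpow_one (n : ℝ)]
    rw [← Real.rpow_add hn0]
    congr 1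
    push_cast
    ring
  rw [← hK, hrw] at f2 f5
  rw [← hK] at f6
  rw [← hr] at f1
  rw [hrw, ← hK] at f4
  have hK1 : 1 ≤ K := by
    rw [hK]
    exact Real.one_le_rpow (by linarith) hc.le
  have hn5 : ∀ m : ℕ, m ≤ n → m ≤ n ^ 5 := fun m hm =>
    hm.trans (Nat.le_self_pow (by norm_num) n)
  have hVa : ∀ t : ℕ, t ≤ n → Va ρ β h t ≤ K := fun t ht => by
    rw [hK]
    exact (hVE t (hn5 t ht)).1
  have hEn : ∀ t : ℕ, t ≤ n → En ρ β h t ≤ K := fun t ht => by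
    rw [hK]
    exact (hVE t (hn5 t ht)).2
  have hVE4 : ∀ k : ℕ, (k : ℝ) ≤ CL * (n : ℝ) ^ 4 → Va ρ β h k ≤ K ∧ En ρ β h k ≤ K := by
    intro k hk
    rw [hK]
    refine hVE k ?_
    have h1 : (k : ℝ) ≤ ((n ^ 5 : ℕ) : ℝ) := by
      push_cast
      have h2 : CL * (n : ℝ) ^ 4 ≤ n * (n : ℝ) ^ 4 :=
        mul_le_mul_of_nonneg_right f3 (by positivity)
      have h3 : (n : ℝ) * (n : ℝ) ^ 4 = (n : ℝ) ^ 5 := by ring
      linarith
    exact_mod_cast h1
  have hw1 : 1 ≤ w := by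
    rw [hw]
    exact Real.one_le_rpow (by linarith) (by linarith)
  intro I B θ D hB hD hJ
  obtain ⟨Θ, hΘ⟩ : ∃ Θ, Θ = ∑ p ∈ I, θ p := ⟨_, rfl⟩
  have hθ0 : ∀ p ∈ I, 0 ≤ θ p := fun p hp => (hB p hp).2.2
  have hΘ0 : 0 ≤ Θ := hΘ ▸ Finset.sum_nonneg hθ0
  have hSt0 : ∀ t : ℕ, 0 ≤ St ρ β h n t := fun t => by
    unfold St
    exact integral_nonneg fun η => Finset.sum_nonneg fun y _ => sq_nonneg _
  obtain ⟨x, hx⟩ : ∃ x, x = 200 * C * K / n := ⟨_, rfl⟩
  have hx0 : 0 < x := by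
    rw [hx]
    positivity
  obtain ⟨V, hV⟩ : ∃ V, V = (D + 1) * I.card + 2 * (a * Real.log n) := ⟨_, rfl⟩
  have hlog0 : 0 ≤ Real.log n := Real.log_nonneg (by linarith)
  have hV0 : 0 ≤ V := by
    rw [hV]
    positivity
  -- a good time
  have hgood : ∀ t ∈ Finset.range n, St ρ β h n t ≤ x →
      ∑ p ∈ I, θ p * us ρ β h n t (B p) ≤ V + 1 / 8 * Θ := by
    intro t htr hStx
    have htn : t ≤ n := (Finset.mem_range.1 htr).le
    have htn' : (t : ℝ) ≤ n := by exact_mod_cast htn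
    obtain ⟨v, -, hv⟩ := sub94 (d := 2) (by norm_num) hρ β h t
    have hv' : ∀ g : Vec 2, A ρ β h t + inner ℝ v (g - h) ≤ A ρ β g t := by
      intro g
      have := hv (g - h)
      rwa [add_sub_cancel] at this
    have hsd : ∀ j : Fin 2, A ρ β (h + r • ej j) t + A ρ β (h - r • ej j) t -
        2 * A ρ β h t ≤ r * w / 2 := by
      intro j
      have h1 := En_nonneg15 (d := 2) (by norm_num) hρ β (h + r • ej j) t
      have h2 := En_nonneg15 (d := 2) (by norm_num) hρ β (h - r • ej j) t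
      have h3 := hEn t htn
      have h4 := hcur r hr0 f1 j
      have h5 : (t : ℝ) * (lam ρ β (h + r • ej j) + lam ρ β (h - r • ej j) - 2 * lam ρ β h) ≤
          t * (M * r ^ 2) := mul_le_mul_of_nonneg_left h4 (Nat.cast_nonneg t)
      have h6 : (t : ℝ) * (M * r ^ 2) ≤ n * (M * r ^ 2) :=
        mul_le_mul_of_nonneg_right htn' (by positivity)
      have h7 : (n : ℝ) * (M * r ^ 2) = M * (n : ℝ) ^ (a / 2) := by rw [← hr2]; ring
      unfold En at h1 h2 h3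
      linarith
    have h1 := (hL h v n t K r w hgap (by omega) htn hK1 hr0 hw0 f2 hVE4 hsd hv').trans f5
    obtain ⟨Rr, hRdef⟩ : ∃ Rr, Rr = (boxF 2 t).filter
        (fun y => ∀ j, |(emb y - v) j| < w) := ⟨_, rfl⟩
    rw [← hRdef] at h1
    have hR : Rr ⊆ boxF 2 t := by
      rw [hRdef]
      exact Finset.filter_subset _ _
    have hcard : (Rr.card : ℝ) ≤ 9 * (w ^ 2 + 1) := by
      have h2 : (Rr.card : ℝ) ≤ ((ballW v w).card : ℝ) := by
        rw [hRdef]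
        exact_mod_cast Finset.card_le_card (win_sub93 v t _)
      have h3 := card_ballW (d := 2) v (w := w) hw0.le
      have h4 : (2 * w + 1) ^ 2 ≤ 9 * (w ^ 2 + 1) := by
        nlinarith [sq_nonneg (w - 1)]
      linarith
    have h2 := one67 (ρ := ρ) (d := 2) (by norm_num) (β := β) (h := h) htn hR hcard h1 I B θ
      (D := D) hB hJ
    rw [← hΘ] at h2
    have h3 := log67 (D := D) (Y := 9 * (w ^ 2 + 1) * St ρ β h n t) hD
      (mul_nonneg (by positivity) (hSt0 t)) I.card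
    rw [← mul_assoc] at h3
    have h4 : 9 * (w ^ 2 + 1) * St ρ β h n t ≤ 3600 * C * K * (n : ℝ) ^ a := by
      have hW2 : 1 ≤ w ^ 2 := one_le_pow₀ hw1
      calc 9 * (w ^ 2 + 1) * St ρ β h n t ≤ 9 * (2 * w ^ 2) * x :=
            mul_le_mul (by linarith) hStx (hSt0 t) (by positivity)
        _ = 3600 * C * K * (n : ℝ) ^ a := by
            rw [hx, hw2]
            field_simp
            ring
    have h5 : Real.log (2 + 2 * (9 * (w ^ 2 + 1) * St ρ β h n t)) ≤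
        2 * (a * Real.log n) := by
      refine le_trans (Real.log_le_log ?_ (by linarith)) f6
      have : 0 ≤ 9 * (w ^ 2 + 1) * St ρ β h n t := mul_nonneg (by positivity) (hSt0 t)
      linarith
    rw [hV]
    linarith
  -- a bad time
  have hbad : ∀ t ∈ Finset.range n, ∑ p ∈ I, θ p * us ρ β h n t (B p) ≤ Θ := by
    intro t htr
    rw [hΘ]
    exact Finset.sum_le_sum fun p hp => mul_le_of_le_one_right (hθ0 p hp)
      (us_le_one (by norm_num) (Finset.mem_range.1 htr).le (hB p hp).1)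
  -- the bad times are few
  obtain ⟨T₁, hT₁⟩ : ∃ T₁, T₁ = (Finset.range n).filter (fun t => t = 0) := ⟨_, rfl⟩
  obtain ⟨T₂, hT₂⟩ : ∃ T₂, T₂ = (Finset.range n).filter
    (fun t => 1 ≤ t ∧ x < St ρ β h n t) := ⟨_, rfl⟩
  have hc1' : (T₁.card : ℝ) ≤ 1 := by
    have h1 : T₁ ⊆ {0} := by
      intro t ht
      rw [hT₁, Finset.mem_filter] at ht
      rw [Finset.mem_singleton]
      exact ht.2
    have h2 := Finset.card_le_card h1
    rw [Finset.card_singleton] at h2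
    exact_mod_cast h2
  have hc2' : (T₂.card : ℝ) ≤ n / 200 := by
    have h1 : T₂.card * x ≤ ∑ t ∈ T₂, St ρ β h n t := by
      rw [← nsmul_eq_mul]
      refine Finset.card_nsmul_le_sum _ _ _ fun t ht => ?_
      rw [hT₂, Finset.mem_filter] at ht
      exact ht.2.2.le
    have h2 : ∑ t ∈ T₂, St ρ β h n t ≤ ∑ t ∈ Finset.Icc 1 n, St ρ β h n t := by
      refine Finset.sum_le_sum_of_subset_of_nonneg ?_ fun t _ _ => hSt0 t
      intro t ht
      rw [hT₂, Finset.mem_filter, Finset.mem_range] at ht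
      rw [Finset.mem_Icc]
      exact ⟨ht.2.1, ht.1.le⟩
    have h3 : ∑ t ∈ Finset.Icc 1 n, St ρ β h n t ≤ C₀ * Va ρ β h n := hNP h n
    have h4 : C₀ * Va ρ β h n ≤ C * K := by
      calc C₀ * Va ρ β h n ≤ C₀ * K := mul_le_mul_of_nonneg_left (hVa n le_rfl) hC₀
        _ ≤ C * K := mul_le_mul_of_nonneg_right (by linarith) (by linarith)
    have h5 : (T₂.card : ℝ) * x ≤ C * K := by linarith
    have h6 : (n : ℝ) / 200 * x = C * K := by
      rw [hx]
      field_simp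
    by_contra hcon
    push Not at hcon
    have h7 := mul_lt_mul_of_pos_right hcon hx0
    linarith
  obtain ⟨U, hU⟩ : ∃ U, U = V + 1 / 8 * Θ := ⟨_, rfl⟩
  rw [← hU] at hgood
  have hsum : ∑ t ∈ Finset.range n, ∑ p ∈ I, θ p * us ρ β h n t (B p) ≤
      ∑ t ∈ Finset.range n, (U + ((if t ∈ T₁ then Θ else 0) +
        (if t ∈ T₂ then Θ else 0))) := by
    refine Finset.sum_le_sum fun t ht => ?_
    have h1 : 0 ≤ U := by
      rw [hU]
      positivity
    by_cases a1 : t ∈ T₁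
    · have := hbad t ht
      rw [if_pos a1]
      split_ifs <;> linarith
    · by_cases a2 : t ∈ T₂
      · have := hbad t ht
        rw [if_neg a1, if_pos a2]
        linarith
      · rw [if_neg a1, if_neg a2]
        have b1 : t ≠ 0 := by
          intro hcon
          exact a1 (by rw [hT₁, Finset.mem_filter]; exact ⟨ht, hcon⟩)
        have b2 : St ρ β h n t ≤ x := by
          by_contra hcon
          refine a2 ?_
          rw [hT₂, Finset.mem_filter]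
          exact ⟨ht, by omega, not_le.1 hcon⟩
        have := hgood t ht b2
        linarith
  have hind : ∀ T : Finset ℕ, T ⊆ Finset.range n →
      ∑ t ∈ Finset.range n, (if t ∈ T then Θ else 0) = T.card * Θ := by
    intro T hT
    rw [← Finset.sum_filter, Finset.sum_const, nsmul_eq_mul]
    congr 2
    congr 1
    ext t
    rw [Finset.mem_filter]
    exact ⟨fun h => h.2, fun h => ⟨hT h, h⟩⟩
  rw [Finset.sum_add_distrib, Finset.sum_add_distrib, Finset.sum_const, Finset.card_range,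
    nsmul_eq_mul, hind T₁ (by rw [hT₁]; exact Finset.filter_subset _ _),
    hind T₂ (by rw [hT₂]; exact Finset.filter_subset _ _)] at hsum
  have hfin : ∑ p ∈ I, θ p * ((∑ t ∈ Finset.range n, us ρ β h n t (B p)) / n - 3 / 10) =
      (∑ t ∈ Finset.range n, ∑ p ∈ I, θ p * us ρ β h n t (B p)) / n - 3 / 10 * Θ := by
    rw [Finset.sum_comm, Finset.sum_div, hΘ, Finset.mul_sum, ← Finset.sum_sub_distrib]
    refine Finset.sum_congr rfl fun p _ => ?_
    rw [← Finset.mul_sum]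
    ring
  rw [hfin]
  have h1 : (∑ t ∈ Finset.range n, ∑ p ∈ I, θ p * us ρ β h n t (B p)) / n ≤ V + 3 / 10 * Θ := by
    rw [div_le_iff₀ hn0]
    have h2 : (T₁.card : ℝ) * Θ ≤ 1 * Θ := mul_le_mul_of_nonneg_right hc1' hΘ0
    have h3 : (T₂.card : ℝ) * Θ ≤ n / 200 * Θ := mul_le_mul_of_nonneg_right hc2' hΘ0
    have h4 : (1000 : ℝ) * Θ ≤ n * Θ := mul_le_mul_of_nonneg_right hnR hΘ0
    rw [hU] at hsum
    linarith
  have h2 : V ≤ 2 * a * Real.log n + 2 * (D + 1) * I.card := by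
    rw [hV]
    have : 0 ≤ (D + 1) * (I.card : ℝ) := by positivity
    linarith
  linarith

end Pool.Agent.W_7d29a1_OT
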