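import Pool.Agent.W_7d29a1_PA.DefsPA

/-!
The variance at one tilt with a finite upper second difference of the free energy, in two
transversal dimensions: definitions and frozen statements of the leaves (helper2).
-/

namespace Pool.Agent.W_7d29a1_OT

open MeasureTheory ProbabilityTheory Filter Topology Pool.Agent.W_MP_7d29a1_pr
  Pool.Agent.W_7d29a1_h46 Pool.Agent.W_7d29a1_h46u Pool.Agent.W_7d29a1_D2.B35
  Pool.Agent.W_7d29a1_Q29 Pool.Agent.W_7d29a1_R34 Pool.Agent.W_7d29a1_SP Pool.Agent.W_7d29a1_PL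

/-- The free energy of the walks of length `m` that end in `F`. -/
noncomputable def UF {d : ℕ} (β : ℝ) (h : Vec d) (F : Finset (Site d)) (m : ℕ) (η : Env d) : ℝ :=
  Real.log (∑ y ∈ F, PP β h η m y)

/-- The gap (very strong disorder). -/
def Gap {d : ℕ} (ρ : Measure ℝ) (β : ℝ) (h : Vec d) (g : ℝ) : Prop :=
  lam ρ β h + g ≤ Real.log (Phi h) + Real.log (∫ t, Real.exp (β * t) ∂ρ)

/-- The upper second differences of the free energy at `h` are at most `M r ^ 2`. -/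
def Cur (ρ : Measure ℝ) (β : ℝ) (h : Vec 2) (M δ : ℝ) : Prop := ∀ r : ℝ, 0 < r → r ≤ δ →
  ∀ j : Fin 2, lam ρ β (h + r • ej j) + lam ρ β (h - r • ej j) - 2 * lam ρ β h ≤ M * r ^ 2

/-- The upper second differences of the free energy at `h` are at most `r ^ (2 - e)`. -/
def CurE (ρ : Measure ℝ) (β : ℝ) (h : Vec 2) (e δ : ℝ) : Prop := ∀ r : ℝ, 0 < r → r ≤ δ →
  ∀ j : Fin 2, lam ρ β (h + r • ej j) + lam ρ β (h - r • ej j) - 2 * lam ρ β h ≤ r ^ (2 - e)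

section Leaves

variable (d : ℕ) (ρ : Measure ℝ) (β : ℝ)

/-- EHRU: a restricted free energy with a low mean is rarely large. -/
def EhrU : Prop := ∃ C : ℝ, 1 ≤ C ∧ ∀ (h : Vec d) (m : ℕ) (F : Finset (Site d)) (K l : ℝ),
  1 ≤ K → C * K ≤ l → Va ρ β h m ≤ K → (∀ η : Env d, 0 < ∑ y ∈ F, PP β h η m y) →
  ∫ η, UF β h F m η ∂(law d ρ) ≤ A ρ β h m - l →
    (law d ρ).real {η | A ρ β h m - l / C < UF β h F m η} ≤ C * (K / l) ^ (1 / C)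

/-- TOPO: no site of the box has a large free energy. -/
def TopO : Prop := ∀ g : ℝ, 0 < g → ∃ C : ℝ, 1 ≤ C ∧ ∀ h : Vec d, Gap ρ β h g →
  ∀ (n t : ℕ) (K : ℝ), 1 ≤ n → t ≤ n → 1 ≤ K →
    (∀ k : ℕ, (k : ℝ) ≤ C * (n : ℝ) ^ (d + 2) → Va ρ β h k ≤ K ∧ En ρ β h k ≤ K) →
      (law d ρ).real {η | ∃ y ∈ boxF d t, A ρ β h (n - t) + C * K < X β h (sh t y η) (n - t)} ≤
        C / n

/-- LEAKO (`d = 2`): the leak of a window, from one tilt. -/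
def LeakO : Prop := ∀ g : ℝ, 0 < g → ∃ C : ℝ, 1 ≤ C ∧ ∀ (h v : Vec 2) (n t : ℕ) (K r w : ℝ),
  Gap ρ β h g → 1 ≤ n → t ≤ n → 1 ≤ K → 0 < r → 0 < w → C * K ≤ r * w →
  (∀ k : ℕ, (k : ℝ) ≤ C * (n : ℝ) ^ 4 → Va ρ β h k ≤ K ∧ En ρ β h k ≤ K) →
  (∀ j : Fin 2, A ρ β (h + r • ej j) t + A ρ β (h - r • ej j) t - 2 * A ρ β h t ≤ r * w / 2) →
  (∀ g : Vec 2, A ρ β h t + inner ℝ v (g - h) ≤ A ρ β g t) →
    ∫ η, (1 - ∑ y ∈ (boxF 2 t).filter (fun y => ∀ j, |(emb y - v) j| < w), Qt β h n t y η)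
      ∂(law 2 ρ) ≤ C * (K / (r * w)) ^ (1 / C) + C / n

/-- BUDO: the budget at one tilt. -/
def BudO : Prop := ∀ g M : ℝ, 0 < g → 0 < M → ∃ C : ℝ, 0 ≤ C ∧ ∀ (h : Vec 2) (δ a c : ℝ),
  0 < δ → 0 < a → a ≤ 1 / 8 → 0 < c → 8 * c ≤ a → Gap ρ β h g → Cur ρ β h M δ →
  ∃ n₀ : ℕ, ∀ n : ℕ, n₀ ≤ n →
    (∀ m : ℕ, m ≤ n ^ 5 → Va ρ β h m ≤ (n : ℝ) ^ c ∧ En ρ β h m ≤ (n : ℝ) ^ c) →
      Bd ρ β h n (C * a * Real.log n) C

/-- BUDE: the budget at one tilt, with a power in the place of the curvature. -/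
def BudE : Prop := ∀ g : ℝ, 0 < g → ∃ C : ℝ, 0 ≤ C ∧ ∀ (h : Vec 2) (δ a c : ℝ),
  0 < δ → 0 < a → a ≤ 1 / 8 → 0 < c → 8 * c ≤ a → Gap ρ β h g → CurE ρ β h (a / 4) δ →
  ∃ n₀ : ℕ, ∀ n : ℕ, n₀ ≤ n →
    (∀ m : ℕ, m ≤ n ^ 5 → Va ρ β h m ≤ (n : ℝ) ^ c ∧ En ρ β h m ≤ (n : ℝ) ^ c) →
      Bd ρ β h n (C * a * Real.log n) C

/-- The theorem with the largest variance, with a power in the place of the curvature. -/
def MaxE : Prop := ∀ h : Vec 2, VSD ρ β h → ∃ e : ℝ, 0 < e ∧ ((∃ δ : ℝ, 0 < δ ∧ CurE ρ β h e δ) →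
  ∃ c : ℝ, 0 < c ∧ ∀ᶠ n : ℕ in atTop, ∃ m : ℕ, m ≤ n ∧ (n : ℝ) ^ c ≤ Va ρ β h m)

/-- **The theorem** (`d = 2`), with a power in the place of the curvature. -/
def MainE : Prop := ∀ h : Vec 2, VSD ρ β h → ∃ e : ℝ, 0 < e ∧
  ((∃ δ : ℝ, 0 < δ ∧ CurE ρ β h e δ) →
    ∃ c : ℝ, 0 < c ∧ ∀ᶠ n : ℕ in atTop, (n : ℝ) ^ c ≤ Va ρ β h n)

/-- The theorem with the largest variance. -/
def MaxO : Prop := ∀ h : Vec 2, VSD ρ β h → (∃ M δ : ℝ, 0 < δ ∧ Cur ρ β h M δ) →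
  ∃ c : ℝ, 0 < c ∧ ∀ᶠ n : ℕ in atTop, ∃ m : ℕ, m ≤ n ∧ (n : ℝ) ^ c ≤ Va ρ β h m

/-- **The theorem** (`d = 2`): at every tilt with a finite upper second difference of the free
energy, the variance is at least a power, at all large times. -/
def MainO : Prop := ∀ h : Vec 2, VSD ρ β h → (∃ M δ : ℝ, 0 < δ ∧ Cur ρ β h M δ) →
  ∃ c : ℝ, 0 < c ∧ ∀ᶠ n : ℕ in atTop, (n : ℝ) ^ c ≤ Va ρ β h n

end Leaves

end Pool.Agent.W_7d29a1_OT
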