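import Pool.Agent.W_7d29a1_OT.DefsOT
import Pool.Agent.W_7d29a1_NR.Law84
import Pool.Agent.W_7d29a1_SQ.Ehl84
import Pool.Agent.W_7d29a1_KZ.Exc62
import Pool.Agent.W_7d29a1_R34.Box34

/-!
EHRU (helper2): a restricted free energy with a low mean is rarely large, for the laws of convex
functions of a Gaussian variable (Ehrhard).
-/

namespace Pool.Agent.W_7d29a1_OT

open MeasureTheory ProbabilityTheory Filter Topology Pool.Agent.W_MP_7d29a1_pr
  Pool.Agent.W_7d29a1_h46 Pool.Agent.W_7d29a1_h46u Pool.Agent.W_7d29a1_D2.B35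
  Pool.Agent.W_7d29a1_Q29 Pool.Agent.W_7d29a1_R34 Pool.Agent.W_7d29a1_SP Pool.Agent.W_7d29a1_PL
  Pool.Agent.W_7d29a1_SP.A84 Pool.Agent.W_7d29a1_NR.L84 Pool.Agent.W_7d29a1_SQ.E84

namespace E2

variable {d : ℕ}

section LSS

variable {S : Type*} [Fintype S] {m : ℕ} {ρ : Measure ℝ} [IsProbabilityMeasure ρ]

lemma comp2 (β : ℝ) (c : S → ℝ) (q : S → Fin m → ℕ × Site d) (s : ℝ) :
    (law d ρ).real {η | LS β c q η ≤ s} = 1 - (law d ρ).real {η | s < LS β c q η} := by
  rw [← probReal_compl_eq_one_sub (measurableSet_lt measurable_const (measurable_LS β c q))]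
  congr 1
  ext η
  simp

/-- The lower tail. -/
lemma low2 [Nonempty S] (hG : GC ρ) {β : ℝ} (hβ : 0 ≤ β) (c : S → ℝ)
    (q : S → Fin m → ℕ × Site d) {s0 s1 t : ℝ} (ht : 0 ≤ t)
    (h0 : (law d ρ).real {η | LS β c q η ≤ s0} ≤ 1 / 2)
    (h1 : (law d ρ).real {η | s1 < LS β c q η} ≤ 1 / 5) :
    (law d ρ).real {η | LS β c q η ≤ s0 - t * (s1 - s0)} ≤ Real.exp (-(t ^ 2 / 4)) := by
  have c1 := comp2 (ρ := ρ) β c q s1
  have h7 := unluckS84 hG hβ c q (a := 0) (b := 3 / 4) (s0 := s0) (s1 := s1) ht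
    (by rw [Phi_zero]; exact h0) (by rw [c1]; linarith [Phi_b])
  refine h7.trans ?_
  rw [show (0 : ℝ) - t * (3 / 4 - 0) = -(3 / 4 * t) by ring]
  refine (Phi_upper (by positivity)).trans (Real.exp_le_exp.2 ?_)
  nlinarith [sq_nonneg t]

/-- The amplification of the upper deviations. -/
lemma amp2 [Nonempty S] (hG : GC ρ) {β : ℝ} (hβ : 0 ≤ β) (c : S → ℝ)
    (q : S → Fin m → ℕ × Site d) {s0 s1 t : ℝ} (ht : 0 ≤ t) (hs : s0 ≤ s1)
    (h0 : 1 / 2 ≤ (law d ρ).real {η | LS β c q η ≤ s0})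
    (hq : 0 < (law d ρ).real {η | s1 < LS β c q η}) :
    cA * ((law d ρ).real {η | s1 < LS β c q η}) ^ (2 * (1 + t) ^ 2) ≤
      (law d ρ).real {η | s1 + t * (s1 - s0) < LS β c q η} := by
  obtain ⟨p, hp⟩ : ∃ p, p = (law d ρ).real {η | s1 < LS β c q η} := ⟨_, rfl⟩
  rw [← hp] at hq ⊢
  have c1 := comp2 (ρ := ρ) β c q s1
  have c2 := comp2 (ρ := ρ) β c q (s1 + t * (s1 - s0))
  have hmono : (law d ρ).real {η | LS β c q η ≤ s0} ≤ (law d ρ).real {η | LS β c q η ≤ s1} :=
    measureReal_mono fun η (hη : LS β c q η ≤ s0) => hη.trans hs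
  have hp2 : p ≤ 1 / 2 := by linarith
  obtain ⟨a, ha⟩ := Ehr.exists_Phi hq (by linarith)
  have ha0 : a ≤ 0 := by
    by_contra hcon
    push Not at hcon
    have h5 := Phi_add a
    have h6 : Ehr.Phi (-a) < Ehr.Phi a := Ehr.Phi_strictMono (by linarith)
    linarith
  have h7 := luckS84 hG hβ c q (a := 0) (b := -a) (s0 := s0) (s1 := s1) ht
    (by rw [Phi_zero]; exact h0) (by
      have h5 := Phi_add a
      rw [c1, ← hp]
      linarith)
  rw [c2] at h7
  have h8 : Ehr.Phi (-a + t * (-a - 0)) + Ehr.Phi (-((1 + t) * (-a))) = 1 := by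
    have := Phi_add ((1 + t) * (-a))
    rw [show -a + t * (-a - 0) = (1 + t) * (-a) by ring]
    linarith
  have h9 := Phi_amp (b := -a) (r := 1 + t) (q := p) (by linarith) (by linarith)
    (by rw [neg_neg]; exact ha)
  linarith

end LSS

/-! ### The restricted free energy -/

/-- The weights. -/
noncomputable def cF (h : Vec d) (F : Finset (Site d)) (m : ℕ) :
    {s : Fin m → Step d // pos s m ∈ F} → ℝ := fun z => inner ℝ h (emb (pos z.1 m))

/-- The sites. -/
def qF (F : Finset (Site d)) (m : ℕ) :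
    {s : Fin m → Step d // pos s m ∈ F} → Fin m → ℕ × Site d :=
  fun z i => ((i : ℕ) + 1, pos z.1 ((i : ℕ) + 1))

lemma sum_PP2 (β : ℝ) (h : Vec d) (F : Finset (Site d)) (m : ℕ) (η : Env d) :
    ∑ y ∈ F, PP β h η m y = ∑ z : {s : Fin m → Step d // pos s m ∈ F},
      Real.exp (cF h F m z + β * ∑ i, η (qF F m z i)) := by
  classical
  have h1 : ∑ y ∈ F, PP β h η m y =
      ∑ s : Fin m → Step d, if pos s m ∈ F then wgt β h η s else 0 := by
    unfold PP ZT
    rw [Finset.sum_comm]
    refine Finset.sum_congr rfl fun s _ => ?_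
    simp only [Set.mem_setOf_eq]
    rw [Finset.sum_ite_eq]
  rw [h1, ← Finset.sum_filter]
  rw [Finset.sum_subtype (Finset.univ.filter fun s : Fin m → Step d => pos s m ∈ F)
    (p := fun s => pos s m ∈ F) (by simp)]
  rfl

lemma uf_eq (β : ℝ) (h : Vec d) (F : Finset (Site d)) (m : ℕ) :
    UF β h F m = LS β (cF h F m) (qF F m) := by
  funext η
  unfold UF LS
  rw [sum_PP2]

lemma ne2 {β : ℝ} {h : Vec d} {F : Finset (Site d)} {m : ℕ} {η : Env d}
    (hp : 0 < ∑ y ∈ F, PP β h η m y) : Nonempty {s : Fin m → Step d // pos s m ∈ F} := by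
  by_contra hne
  rw [not_nonempty_iff] at hne
  rw [sum_PP2, Finset.univ_eq_empty, Finset.sum_empty] at hp
  exact lt_irrefl _ hp

/-- The restricted free energy is at most the free energy. -/
lemma uf_le (hd : 0 < d) (β : ℝ) (h : Vec d) (F : Finset (Site d)) (m : ℕ) (η : Env d)
    (hp : 0 < ∑ y ∈ F, PP β h η m y) : UF β h F m η ≤ X β h η m := by
  classical
  unfold UF X
  refine Real.log_le_log hp ?_
  have h1 : ∑ y ∈ F, PP β h η m y =
      ∑ s : Fin m → Step d, if pos s m ∈ F then wgt β h η s else 0 := by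
    unfold PP ZT
    rw [Finset.sum_comm]
    refine Finset.sum_congr rfl fun s _ => ?_
    simp only [Set.mem_setOf_eq]
    rw [Finset.sum_ite_eq]
  rw [h1]
  unfold Z ZT
  refine Finset.sum_le_sum fun s _ => ?_
  have h2 : 0 ≤ wgt β h η s := (Real.exp_pos _).le
  simp only [Set.mem_univ, if_true]
  split_ifs
  · exact le_rfl
  · exact h2

section Int

variable {ρ : Measure ℝ} [IsProbabilityMeasure ρ]

lemma memX2 (hd : 0 < d) (hρ : EM ρ) (β : ℝ) (h : Vec d) (n : ℕ) :
    MemLp (fun η : Env d => X β h η n) 2 (law d ρ) := by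
  have h1 : MemLp (fun η : Env d => X β h η n - A ρ β h n) 2 (law d ρ) := by
    rw [memLp_two_iff_integrable_sq ((measurable_X β h n).sub_const _).aestronglyMeasurable]
    exact sqI hd hρ β h n
  have h2 := h1.add (memLp_const (A ρ β h n))
  refine h2.congr_norm (measurable_X β h n).aestronglyMeasurable (Eventually.of_forall fun η => ?_)
  simp

omit [IsProbabilityMeasure ρ] in
lemma sqρ2 (hρ : EM ρ) : MemLp (fun t : ℝ => t) 2 ρ := by
  rw [memLp_two_iff_integrable_sq (by fun_prop)]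
  have h1 := (hρ 1).add (hρ (-1))
  refine (h1.const_mul 2).mono' (by fun_prop) (Eventually.of_forall fun t => ?_)
  rw [Real.norm_eq_abs, abs_of_nonneg (sq_nonneg t)]
  have h2 := Real.quadratic_le_exp_of_nonneg (abs_nonneg t)
  have h3 : Real.exp |t| ≤ Real.exp (1 * t) + Real.exp (-1 * t) := by
    rcases abs_cases t with ⟨h4, _⟩ | ⟨h4, _⟩ <;> rw [h4]
    · rw [one_mul]
      linarith [Real.exp_pos (-1 * t)]
    · rw [show -1 * t = -t by ring]
      linarith [Real.exp_pos (1 * t)]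
  rw [sq_abs] at h2
  simp only [Pi.add_apply]
  nlinarith [abs_nonneg t]

lemma memSite2 (hρ : EM ρ) (p : ℕ × Site d) : MemLp (fun η : Env d => |η p|) 2 (law d ρ) := by
  have hmp : MeasurePreserving (fun η : Env d => η p) (law d ρ) ρ := by
    unfold law
    exact measurePreserving_eval_infinitePi (fun _ => ρ) p
  have h1 : MemLp (fun η : Env d => η p) 2 (law d ρ) := (sqρ2 hρ).comp_measurePreserving hmp
  have := h1.norm
  simpa only [Real.norm_eq_abs] using this

lemma memU2 (hd : 0 < d) (hρ : EM ρ) (β : ℝ) (h : Vec d) (F : Finset (Site d)) (m : ℕ)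
    (hp : ∀ η : Env d, 0 < ∑ y ∈ F, PP β h η m y) :
    MemLp (fun η : Env d => UF β h F m η) 2 (law d ρ) := by
  obtain ⟨z⟩ : Nonempty {s : Fin m → Step d // pos s m ∈ F} := ne2 (hp 0)
  have h11 : MemLp (fun η : Env d => ∑ i, |η (qF F m z i)|) 2 (law d ρ) :=
    memLp_finsetSum _ fun i _ => memSite2 hρ (qF F m z i)
  have h12 : MemLp (fun η : Env d => |β| * ∑ i, |η (qF F m z i)|) 2 (law d ρ) :=
    h11.const_mul |β|
  have h13 : MemLp (fun _ : Env d => |cF h F m z|) 2 (law d ρ) := memLp_const _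
  have h14 : MemLp (fun η : Env d => |X β h η m|) 2 (law d ρ) := by
    have := (memX2 hd hρ β h m).norm
    simpa only [Real.norm_eq_abs] using this
  have h1 : MemLp (fun η : Env d => |X β h η m| + (|cF h F m z| +
      |β| * ∑ i, |η (qF F m z i)|)) 2 (law d ρ) := h14.add (h13.add h12)
  have hm : Measurable (fun η : Env d => UF β h F m η) := by
    have := measurable_LS β (cF h F m) (qF F m)
    rwa [← uf_eq] at this
  refine h1.mono hm.aestronglyMeasurable (Eventually.of_forall fun η => ?_)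
  have h2 := uf_le hd β h F m η (hp η)
  have h3 : cF h F m z + β * ∑ i, η (qF F m z i) ≤ UF β h F m η := by
    unfold UF
    rw [sum_PP2, Real.le_log_iff_exp_le (by rw [← sum_PP2]; exact hp η)]
    exact Finset.single_le_sum (f := fun z => Real.exp (cF h F m z + β * ∑ i, η (qF F m z i)))
      (fun z _ => (Real.exp_pos _).le) (Finset.mem_univ z)
  have h4 : |β * ∑ i, η (qF F m z i)| ≤ |β| * ∑ i, |η (qF F m z i)| := by
    rw [abs_mul]
    exact mul_le_mul_of_nonneg_left (Finset.abs_sum_le_sum_abs _ _) (abs_nonneg _)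
  have h5 := neg_abs_le (cF h F m z)
  have h6 := neg_abs_le (β * ∑ i, η (qF F m z i))
  have h7 := le_abs_self (X β h η m)
  have h8 : 0 ≤ |β| * ∑ i, |η (qF F m z i)| :=
    mul_nonneg (abs_nonneg _) (Finset.sum_nonneg fun i _ => abs_nonneg _)
  have h9 := abs_nonneg (cF h F m z)
  have h10 := abs_nonneg (X β h η m)
  rw [Real.norm_eq_abs, Real.norm_eq_abs]
  refine (abs_le.2 ⟨?_, ?_⟩).trans (le_abs_self _) <;> linarith

end Int

end E2

open E2 in
/-- **EHRU**, for the laws of the convex functions of a Gaussian variable. -/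
theorem ehrU2 {d : ℕ} (hd : 0 < d) {ρ : Measure ℝ} [IsProbabilityMeasure ρ] (hρ : EM ρ)
    (hG : GC ρ) {β : ℝ} (hβ : 0 ≤ β) : EhrU d ρ β := by
  have hcA := cA_pos
  refine ⟨40 + 1024 / cA, by have : 0 < 1024 / cA := by positivity
                             linarith, ?_⟩
  intro h m F K l hK hCK hV hp hmean
  obtain ⟨C, hC⟩ : ∃ C, C = 40 + 1024 / cA := ⟨_, rfl⟩
  have hC40 : 40 ≤ C := by
    have : 0 < 1024 / cA := by positivity
    linarith
  have hCA : 1 + 1024 / cA ≤ C := by linarith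
  rw [← hC] at hCK ⊢
  have hl40 : 40 * K ≤ l := (mul_le_mul_of_nonneg_right hC40 (by linarith)).trans hCK
  have hl0 : 0 < l := by linarith
  have hl1 : 1 ≤ l := by linarith
  obtain ⟨a, ha⟩ : ∃ a, a = A ρ β h m := ⟨_, rfl⟩
  have hX : ∀ x : ℝ, 0 < x → (law d ρ).real {η | a + x < UF β h F m η} ≤ K / x ^ 2 := by
    intro x hx
    refine (cheb hd hρ β h m hx (S := {η | a + x < UF β h F m η}) fun η hη => ?_).trans
      (div_le_div_of_nonneg_right hV (by positivity))
    have h1 : a + x < UF β h F m η := hη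
    have h2 := uf_le hd β h F m η (hp η)
    rw [← ha]
    exact le_trans (by linarith) (le_abs_self _)
  have hne : Nonempty {s : Fin m → Step d // pos s m ∈ F} := ne2 (hp 0)
  have hU := uf_eq β h F m
  have hmem := memU2 (ρ := ρ) hd hρ β h F m hp
  have hUm : Measurable (fun η : Env d => UF β h F m η) := by
    have := measurable_LS β (cF h F m) (qF F m)
    rwa [← uf_eq] at this
  have hUi : Integrable (fun η : Env d => UF β h F m η) (law d ρ) :=
    hmem.integrable (by norm_num)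
  -- the median
  have hmed : 1 / 2 ≤ (law d ρ).real {η | UF β h F m η ≤ a - l / 16} := by
    by_contra hcon
    have hcon' := (not_le.1 hcon).le
    have hs1 : (law d ρ).real {η | a + l / 16 < UF β h F m η} ≤ 1 / 5 := by
      refine (hX (l / 16) (by positivity)).trans ?_
      rw [div_le_iff₀ (by positivity)]
      nlinarith
    obtain ⟨Δ, hΔ⟩ : ∃ Δ, Δ = l / 8 := ⟨_, rfl⟩
    have hΔ0 : 0 < Δ := by rw [hΔ]; positivity
    have hlow : ∀ t : ℝ, 0 ≤ t → (law d ρ).real {η | UF β h F m η ≤ a - l / 16 - t * Δ} ≤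
        Real.exp (-(t ^ 2 / 4)) := by
      intro t ht
      rw [hU] at hcon' hs1 ⊢
      have := low2 hG hβ (cF h F m) (qF F m) ht hcon' hs1
      have e1 : a + l / 16 - (a - l / 16) = Δ := by rw [hΔ]; ring
      rwa [e1] at this
    obtain ⟨Y, hY⟩ : ∃ Y : Env d → ℝ, Y = fun η => a - l / 16 - UF β h F m η := ⟨_, rfl⟩
    have hYm : Measurable Y := by
      rw [hY]
      exact measurable_const.sub hUm
    have hY2 : MemLp Y 2 (law d ρ) := by
      rw [hY]
      exact (memLp_const _).sub hmem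
    have hYsq : Integrable (fun w => Y w ^ 2) (law d ρ) := hY2.integrable_sq
    have hYi : Integrable Y (law d ρ) := hY2.integrable (by norm_num)
    have hsq := Pool.Agent.W_7d29a1_KZ.E62.sqp (μ := law d ρ) hYm hYsq (P := 3 * Δ) (b := 4)
      (by positivity) (by norm_num) fun x hx => by
        have hx0 : 0 < x := lt_of_lt_of_le (by positivity) hx
        have h1 := hlow (x / Δ) (by positivity)
        have e1 : x / Δ * Δ = x := by field_simp
        rw [e1] at h1
        have e2 : {w : Env d | x ≤ Y w} = {η | UF β h F m η ≤ a - l / 16 - x} := by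
          ext w
          simp only [hY, Set.mem_ofPred_eq]
          constructor <;> intro h3 <;> linarith
        rw [e2]
        refine h1.trans ?_
        have ht0 : 0 < x / Δ := by positivity
        obtain ⟨t, ht⟩ : ∃ t, t = x / Δ := ⟨_, rfl⟩
        rw [← ht] at ht0 ⊢
        have h4 : Real.exp (-(t ^ 2 / 4)) ≤ 32 / t ^ 4 := by
          have h5 : (t ^ 2 / 4) ^ 2 / 2 ≤ Real.exp (t ^ 2 / 4) := by
            have := Real.quadratic_le_exp_of_nonneg (show 0 ≤ t ^ 2 / 4 by positivity)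
            nlinarith [sq_nonneg t]
          rw [Real.exp_neg, inv_eq_one_div, div_le_div_iff₀ (Real.exp_pos _) (by positivity)]
          nlinarith
        refine h4.trans ?_
        have e4 : (3 * Δ / x) ^ (4 : ℝ) = (3 * Δ / x) ^ (4 : ℕ) := by
          rw [← Real.rpow_natCast]
          norm_num
        have e5 : 3 * Δ / x = 3 / t := by
          rw [ht]
          field_simp
        rw [e4, e5, div_pow]
        exact div_le_div_of_nonneg_right (by norm_num) (by positivity)
    have e8 : (4 : ℝ) / (4 - 2) * (3 * Δ) ^ 2 = 18 * Δ ^ 2 := by ring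
    rw [e8] at hsq
    have hmi : Integrable (fun w => max (Y w) 0 ^ 2) (law d ρ) := by
      refine hYsq.mono ((hYm.max measurable_const).pow_const 2).aestronglyMeasurable
        (Eventually.of_forall fun w => ?_)
      rw [Real.norm_eq_abs, Real.norm_eq_abs, abs_of_nonneg (sq_nonneg _),
        abs_of_nonneg (sq_nonneg _)]
      rcases le_total (Y w) 0 with h3 | h3
      · rw [max_eq_right h3]
        nlinarith [sq_nonneg (Y w)]
      · rw [max_eq_left h3]
    have h5 : ∫ w, Y w ∂(law d ρ) ≤ ∫ w, (max (Y w) 0 ^ 2 * (1 / (10 * Δ)) + 5 / 2 * Δ)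
        ∂(law d ρ) := by
      refine integral_mono hYi ((hmi.mul_const _).add (integrable_const _)) fun w => ?_
      have h6 : Y w ≤ max (Y w) 0 := le_max_left _ _
      obtain ⟨y, hy⟩ : ∃ y, y = max (Y w) 0 := ⟨_, rfl⟩
      rw [← hy] at h6
      show Y w ≤ max (Y w) 0 ^ 2 * (1 / (10 * Δ)) + 5 / 2 * Δ
      rw [← hy]
      refine h6.trans ?_
      have h7 : y ^ 2 * (1 / (10 * Δ)) + 5 / 2 * Δ - y = (y - 5 * Δ) ^ 2 * (1 / (10 * Δ)) := by
        field_simp
        ring
      have h8 : 0 ≤ (y - 5 * Δ) ^ 2 * (1 / (10 * Δ)) := by positivity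
      linarith
    rw [integral_add (hmi.mul_const _) (integrable_const _), integral_mul_const] at h5
    simp only [integral_const, probReal_univ, one_smul] at h5
    have h9 : (∫ w, max (Y w) 0 ^ 2 ∂(law d ρ)) * (1 / (10 * Δ)) ≤ 18 * Δ ^ 2 * (1 / (10 * Δ)) :=
      mul_le_mul_of_nonneg_right hsq (by positivity)
    have h10 : 18 * Δ ^ 2 * (1 / (10 * Δ)) = 9 / 5 * Δ := by
      field_simp
      ring
    have h11 : ∫ w, Y w ∂(law d ρ) = a - l / 16 - ∫ η, UF β h F m η ∂(law d ρ) := by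
      rw [hY, integral_sub (integrable_const _) hUi]
      simp
    rw [← ha] at hmean
    rw [h11] at h5
    rw [h10] at h9
    rw [hΔ] at h5 h9
    linarith
  -- the amplification
  obtain ⟨q, hq⟩ : ∃ q, q = (law d ρ).real {η | a - l / 32 < UF β h F m η} := ⟨_, rfl⟩
  have hq0 : 0 ≤ q := by rw [hq]; exact measureReal_nonneg
  have hfirst : (law d ρ).real {η | A ρ β h m - l / C < UF β h F m η} ≤ q := by
    rw [hq]
    refine measureReal_mono fun η hη => ?_
    have h1 : A ρ β h m - l / C < UF β h F m η := hη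
    show a - l / 32 < UF β h F m η
    have h2 : l / C ≤ l / 32 := div_le_div_of_nonneg_left hl0.le (by norm_num) (by linarith)
    rw [← ha] at h1
    linarith
  refine hfirst.trans ?_
  have hKl0 : 0 < K / l := by positivity
  have hKl1 : K / l ≤ 1 := by
    rw [div_le_one hl0]
    linarith
  rcases hq0.eq_or_lt with hz | hpos
  · rw [← hz]
    have : 0 ≤ (K / l) ^ (1 / C) := Real.rpow_nonneg hKl0.le _
    positivity
  have hamp : cA * q ^ (2 * (1 + 2 : ℝ) ^ 2) ≤ 1024 * (K / l) := by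
    have h1 := hX (l / 32) (by positivity)
    have h2 : K / (l / 32) ^ 2 ≤ 1024 * (K / l) := by
      have e1 : K / (l / 32) ^ 2 = 1024 * (K / l) / l := by
        field_simp
        norm_num
      rw [e1]
      exact div_le_self (by positivity) hl1
    have h3 := hmed
    rw [hq, hU] at hpos
    rw [hU] at h3 h1
    have h4 := amp2 hG hβ (cF h F m) (qF F m) (s0 := a - l / 16) (s1 := a - l / 32) (t := 2)
      (by norm_num) (by linarith) h3 hpos
    have e2 : a - l / 32 + 2 * (a - l / 32 - (a - l / 16)) = a + l / 32 := by ring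
    rw [e2] at h4
    rw [hq, hU]
    exact h4.trans (h1.trans h2)
  have e3 : (2 * (1 + 2 : ℝ) ^ 2) = 18 := by norm_num
  rw [e3] at hamp
  have h5 : q ^ (18 : ℝ) ≤ 1024 / cA * (K / l) := by
    rw [div_mul_eq_mul_div, le_div_iff₀ hcA]
    linarith
  have h6 : q ≤ (1024 / cA * (K / l)) ^ (1 / 18 : ℝ) := by
    have h7 : q = (q ^ (18 : ℝ)) ^ (1 / 18 : ℝ) := by
      rw [← Real.rpow_mul hq0]
      norm_num
    rw [h7]
    exact Real.rpow_le_rpow (by positivity) h5 (by norm_num)
  refine h6.trans ?_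
  rw [Real.mul_rpow (by positivity) hKl0.le]
  have h8 : (1024 / cA) ^ (1 / 18 : ℝ) ≤ C := by
    have h9 : (0 : ℝ) ≤ 1024 / cA := by positivity
    calc (1024 / cA) ^ (1 / 18 : ℝ) ≤ (1 + 1024 / cA) ^ (1 / 18 : ℝ) :=
          Real.rpow_le_rpow h9 (by linarith) (by norm_num)
      _ ≤ (1 + 1024 / cA) ^ (1 : ℝ) :=
          Real.rpow_le_rpow_of_exponent_le (by linarith) (by norm_num)
      _ ≤ C := by rw [Real.rpow_one]; exact hCA
  have h9 : (K / l) ^ (1 / 18 : ℝ) ≤ (K / l) ^ (1 / C) := by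
    refine Real.rpow_le_rpow_of_exponent_ge hKl0 hKl1 ?_
    exact div_le_div_of_nonneg_left (by norm_num) (by norm_num) (by linarith)
  exact mul_le_mul h8 h9 (Real.rpow_nonneg hKl0.le _) (by linarith)

end Pool.Agent.W_7d29a1_OT
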