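import Pool.Agent.W_7d29a1_OT.Ehr2
import Pool.Agent.W_7d29a1_PL.BudP67
import Pool.Agent.W_7d29a1_R34.Leak94

/-!
LEAKO (helper2): the leak of a window from one tilt, in two transversal dimensions.
-/

namespace Pool.Agent.W_7d29a1_OT

open MeasureTheory ProbabilityTheory Filter Topology Pool.Agent.W_MP_7d29a1_pr
  Pool.Agent.W_7d29a1_h46 Pool.Agent.W_7d29a1_h46u Pool.Agent.W_7d29a1_D2.B35
  Pool.Agent.W_7d29a1_Q29 Pool.Agent.W_7d29a1_R34 Pool.Agent.W_7d29a1_SP Pool.Agent.W_7d29a1_PL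

namespace L2

open E2

variable {d : ℕ}

lemma sum_ZT (β : ℝ) (h : Vec d) (F : Finset (Site d)) (t : ℕ) (η : Env d) :
    ∑ y ∈ F, PP β h η t y = ZT β h η {s : Fin t → Step d | pos s t ∈ F} := by
  classical
  unfold PP ZT
  rw [Finset.sum_comm]
  refine Finset.sum_congr rfl fun s _ => ?_
  simp only [Set.mem_setOf_eq]
  rw [Finset.sum_ite_eq]

/-- The restricted free energy and the tilt. -/
lemma uf_tilt (hd : 0 < d) (β : ℝ) (h u : Vec d) (F : Finset (Site d)) (t : ℕ) (η : Env d) {B : ℝ}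
    (hF : ∀ y ∈ F, B ≤ inner ℝ u (emb y)) (hp : 0 < ∑ y ∈ F, PP β h η t y) :
    UF β h F t η ≤ X β (h + u) η t - B := by
  have h1 : Real.exp B * (∑ y ∈ F, PP β h η t y) ≤ Z β (h + u) η t := by
    rw [sum_ZT]
    refine (ZT_tilt_ge β h (h + u) η (A := B) fun s hs => ?_).trans
      (ZT_mono β (h + u) η (Set.subset_univ _))
    rw [add_sub_cancel_left]
    exact hF _ hs
  have hZ := Z_pos hd β (h + u) η t
  have h2 := Real.log_le_log (mul_pos (Real.exp_pos B) hp) h1
  rw [Real.log_mul (Real.exp_pos B).ne' hp.ne', Real.log_exp] at h2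
  unfold UF X
  linarith

/-- One side: the mass of a set of positions. -/
theorem side2 {ρ : Measure ℝ} [IsProbabilityMeasure ρ] (hρ : EM ρ) {β : ℝ} {C₁ C₂ : ℝ}
    (hC₁ : 1 ≤ C₁) (hC₂ : 1 ≤ C₂)
    (hE : ∀ (h : Vec 2) (m : ℕ) (F : Finset (Site 2)) (K l : ℝ),
      1 ≤ K → C₁ * K ≤ l → Va ρ β h m ≤ K → (∀ η : Env 2, 0 < ∑ y ∈ F, PP β h η m y) →
      ∫ η, UF β h F m η ∂(law 2 ρ) ≤ A ρ β h m - l →
      (law 2 ρ).real {η | A ρ β h m - l / C₁ < UF β h F m η} ≤ C₁ * (K / l) ^ (1 / C₁))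
    {h : Vec 2} {n t : ℕ} {K l : ℝ} (htn : t ≤ n) (hK : 1 ≤ K) (hl : 4 * C₁ * C₂ * K ≤ l)
    (hVt : Va ρ β h t ≤ K) (hVn : Va ρ β h n ≤ K)
    (hT : (law 2 ρ).real {η | ∃ y ∈ boxF 2 t, A ρ β h (n - t) + C₂ * K <
      X β h (sh t y η) (n - t)} ≤ C₂ / n)
    {F : Finset (Site 2)} (hF : F ⊆ boxF 2 t) {u : Vec 2} {B : ℝ}
    (hB : ∀ y ∈ F, B ≤ inner ℝ u (emb y)) (hm : A ρ β (h + u) t - B ≤ A ρ β h t - l) :
    ∫ η, ∑ y ∈ F, Qt β h n t y η ∂(law 2 ρ) ≤ 19 * C₁ ^ 2 * (K / l) ^ (1 / C₁) + C₂ / n := by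
  classical
  have hd : 0 < 2 := by norm_num
  have hK0 : 0 < K := by linarith
  have hC12 : C₁ ≤ 4 * C₁ * C₂ := by nlinarith
  have hCl : C₁ * K ≤ l := (mul_le_mul_of_nonneg_right hC12 hK0.le).trans hl
  have hl0 : 0 < l := by nlinarith
  have hlK : K ≤ l := by nlinarith
  have hl1 : 1 ≤ l := by linarith
  have hKl0 : 0 < K / l := by positivity
  have hKl1 : K / l ≤ 1 := by rw [div_le_one hl0]; exact hlK
  have hC₁0 : 0 < C₁ := by linarith
  obtain ⟨p, hp⟩ : ∃ p, p = (K / l) ^ (1 / C₁) := ⟨_, rfl⟩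
  rw [← hp]
  have hp0 : 0 ≤ p := by rw [hp]; exact Real.rpow_nonneg hKl0.le _
  have hKp : K / l ≤ p := by
    rw [hp]
    calc K / l = (K / l) ^ (1 : ℝ) := (Real.rpow_one _).symm
      _ ≤ (K / l) ^ (1 / C₁) := by
          refine Real.rpow_le_rpow_of_exponent_ge hKl0 hKl1 ?_
          rw [div_le_one hC₁0]
          exact hC₁
  have hRHS : 0 ≤ 19 * C₁ ^ 2 * p + C₂ / n := by positivity
  by_cases hne : ∃ s : Fin t → Step 2, pos s t ∈ F
  swap
  · -- no walk ends in `F`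
    have h0 : ∀ η : Env 2, ∑ y ∈ F, Qt β h n t y η = 0 := by
      intro η
      have h1 : ∑ y ∈ F, PP β h η t y = 0 := by
        rw [sum_ZT]
        have h2 : {s : Fin t → Step 2 | pos s t ∈ F} = ∅ := by
          ext s
          simp only [Set.mem_setOf_eq, Set.mem_empty_iff_false, iff_false]
          exact fun hs => hne ⟨s, hs⟩
        rw [h2]
        unfold ZT
        simp
      have h3 : ∀ y ∈ F, PP β h η t y = 0 :=
        (Finset.sum_eq_zero_iff_of_nonneg fun y _ => PP_nonneg β h η t y).1 h1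
      refine Finset.sum_eq_zero fun y hy => ?_
      unfold Qt
      rw [h3 y hy, zero_mul, zero_div]
    simp only [h0, integral_zero]
    exact hRHS
  have hpos : ∀ η : Env 2, 0 < ∑ y ∈ F, PP β h η t y := by
    intro η
    rw [sum_ZT]
    exact ZT_pos β h η (by obtain ⟨s, hs⟩ := hne; exact ⟨s, hs⟩)
  have hmem := memU2 (ρ := ρ) hd hρ β h F t hpos
  have hUi : Integrable (fun η : Env 2 => UF β h F t η) (law 2 ρ) :=
    hmem.integrable (by norm_num)
  have hUm : Measurable (fun η : Env 2 => UF β h F t η) := by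
    have := Pool.Agent.W_7d29a1_NR.L84.measurable_LS β (cF h F t) (qF F t)
    rwa [← uf_eq] at this
  have hXi : Integrable (fun η : Env 2 => X β (h + u) η t) (law 2 ρ) := (concU hd hρ β (h + u) t).1
  have hmean : ∫ η, UF β h F t η ∂(law 2 ρ) ≤ A ρ β h t - l := by
    have h1 : ∫ η, UF β h F t η ∂(law 2 ρ) ≤ ∫ η, (X β (h + u) η t - B) ∂(law 2 ρ) :=
      integral_mono hUi (hXi.sub (integrable_const _)) fun η => uf_tilt hd β h u F t η hB (hpos η)
    rw [integral_sub hXi (integrable_const _)] at h1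
    have h2 : ∫ η, X β (h + u) η t ∂(law 2 ρ) = A ρ β (h + u) t := rfl
    rw [h2] at h1
    simp only [integral_const, probReal_univ, one_smul] at h1
    exact h1.trans hm
  have hE1 := hE h t F K l hK hCl hVt hpos hmean
  rw [← hp] at hE1
  -- the three bad events
  obtain ⟨B1, hB1⟩ : ∃ B1, B1 = {η : Env 2 | A ρ β h t - l / C₁ < UF β h F t η} := ⟨_, rfl⟩
  obtain ⟨B2, hB2⟩ : ∃ B2, B2 = {η : Env 2 | ∃ y ∈ boxF 2 t, A ρ β h (n - t) + C₂ * K <
      X β h (sh t y η) (n - t)} := ⟨_, rfl⟩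
  obtain ⟨B3, hB3⟩ : ∃ B3, B3 = {η : Env 2 | X β h η n < A ρ β h n - l / (4 * C₁)} := ⟨_, rfl⟩
  have m1 : MeasurableSet B1 := by
    rw [hB1]
    exact measurableSet_lt measurable_const hUm
  have m2 : MeasurableSet B2 := by
    have e : B2 = ⋃ y ∈ boxF 2 t, {η : Env 2 | A ρ β h (n - t) + C₂ * K <
        X β h (sh t y η) (n - t)} := by
      rw [hB2]
      ext η
      simp
    rw [e]
    exact Finset.measurableSet_biUnion _ fun y _ => measurableSet_lt measurable_const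
      ((measurable_X β h (n - t)).comp (measurable_sh t y))
  have m3 : MeasurableSet B3 := by
    rw [hB3]
    exact measurableSet_lt (measurable_X β h n) measurable_const
  have P1 : (law 2 ρ).real B1 ≤ C₁ * p := by rw [hB1]; exact hE1
  have P2 : (law 2 ρ).real B2 ≤ C₂ / n := by rw [hB2]; exact hT
  have P3 : (law 2 ρ).real B3 ≤ 16 * C₁ ^ 2 * p := by
    have h1 := cheb hd hρ β h n (r := l / (4 * C₁)) (by positivity) (S := B3) fun η hη => by
      rw [hB3] at hη
      have h2 : X β h η n < A ρ β h n - l / (4 * C₁) := hη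
      rw [abs_sub_comm]
      exact le_trans (by linarith) (le_abs_self _)
    refine h1.trans ((div_le_div_of_nonneg_right hVn (by positivity)).trans ?_)
    have e1 : K / (l / (4 * C₁)) ^ 2 = 16 * C₁ ^ 2 * (K / l / l) := by
      field_simp
      norm_num
    rw [e1]
    refine mul_le_mul_of_nonneg_left ?_ (by positivity)
    exact (div_le_self hKl0.le hl1).trans hKp
  have hQ1 : ∀ η : Env 2, ∑ y ∈ F, Qt β h n t y η ≤ 1 := by
    intro η
    rw [← S98.Qt_sum hd β h htn η]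
    exact Finset.sum_le_sum_of_subset_of_nonneg hF fun y _ _ => S98.Qt_nonneg hd β h n t y η
  have hpt : ∀ η : Env 2, ∑ y ∈ F, Qt β h n t y η ≤ 2 * C₁ * p +
      (B1.indicator (fun _ => (1 : ℝ)) η + (B2.indicator (fun _ => (1 : ℝ)) η +
        B3.indicator (fun _ => (1 : ℝ)) η)) := by
    intro η
    have i1 : 0 ≤ B1.indicator (fun _ => (1 : ℝ)) η := Set.indicator_nonneg (fun _ _ => zero_le_one) _
    have i2 : 0 ≤ B2.indicator (fun _ => (1 : ℝ)) η := Set.indicator_nonneg (fun _ _ => zero_le_one) _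
    have i3 : 0 ≤ B3.indicator (fun _ => (1 : ℝ)) η := Set.indicator_nonneg (fun _ _ => zero_le_one) _
    have hCp : 0 ≤ 2 * C₁ * p := by positivity
    by_cases b1 : η ∈ B1
    · rw [Set.indicator_of_mem b1]
      have := hQ1 η
      linarith
    by_cases b2 : η ∈ B2
    · rw [Set.indicator_of_mem b2]
      have := hQ1 η
      linarith
    by_cases b3 : η ∈ B3
    · rw [Set.indicator_of_mem b3]
      have := hQ1 η
      linarith
    -- the good event
    have g1 : UF β h F t η ≤ A ρ β h t - l / C₁ := by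
      by_contra hcon
      exact b1 (by rw [hB1]; exact not_le.1 hcon)
    have g2 : ∀ y ∈ boxF 2 t, X β h (sh t y η) (n - t) ≤ A ρ β h (n - t) + C₂ * K := by
      intro y hy
      by_contra hcon
      exact b2 (by rw [hB2]; exact ⟨y, hy, not_le.1 hcon⟩)
    have g3 : A ρ β h n - l / (4 * C₁) ≤ X β h η n := by
      by_contra hcon
      exact b3 (by rw [hB3]; exact not_le.1 hcon)
    have hsup := A_add_le hd hρ β h t (n - t)
    rw [Nat.add_sub_cancel' htn] at hsup
    have h1 : ∀ y ∈ F, Qt β h n t y η ≤ PP β h η t y *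
        Real.exp (A ρ β h (n - t) + C₂ * K - (A ρ β h n - l / (4 * C₁))) := by
      intro y hy
      unfold Qt
      have hZ := Z_pos hd β h (sh t y η) (n - t)
      have hZn := Z_pos hd β h η n
      have h2 : Z β h (sh t y η) (n - t) ≤ Real.exp (A ρ β h (n - t) + C₂ * K) := by
        rw [← Real.log_le_iff_le_exp hZ]
        exact g2 y (hF hy)
      have h3 : Real.exp (A ρ β h n - l / (4 * C₁)) ≤ Z β h η n := by
        rw [← Real.le_log_iff_exp_le hZn]
        exact g3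
      rw [Real.exp_sub, ← mul_div_assoc]
      exact div_le_div₀ (mul_nonneg (PP_nonneg β h η t y) (Real.exp_pos _).le)
        (mul_le_mul_of_nonneg_left h2 (PP_nonneg β h η t y)) (Real.exp_pos _) h3
    have h4 : ∑ y ∈ F, Qt β h n t y η ≤ Real.exp (UF β h F t η) *
        Real.exp (A ρ β h (n - t) + C₂ * K - (A ρ β h n - l / (4 * C₁))) := by
      refine (Finset.sum_le_sum h1).trans (le_of_eq ?_)
      rw [← Finset.sum_mul]
      unfold UF
      rw [Real.exp_log (hpos η)]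
    rw [← Real.exp_add] at h4
    have h5 : C₂ * K ≤ l / (4 * C₁) := by
      rw [le_div_iff₀ (by positivity)]
      linarith
    have h6 : l / (4 * C₁) = l / C₁ / 4 := by
      field_simp
    have h7 : UF β h F t η + (A ρ β h (n - t) + C₂ * K - (A ρ β h n - l / (4 * C₁))) ≤
        -(l / (2 * C₁)) := by
      have h8 : l / (2 * C₁) = l / C₁ / 2 := by
        field_simp
      rw [h6] at h5 ⊢
      rw [h8]
      linarith
    have h9 : Real.exp (-(l / (2 * C₁))) ≤ 2 * C₁ * p := by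
      have hx : 0 < l / (2 * C₁) := by positivity
      have h10 : Real.exp (-(l / (2 * C₁))) ≤ 1 / (l / (2 * C₁)) := by
        rw [Real.exp_neg, inv_eq_one_div]
        refine one_div_le_one_div_of_le hx ?_
        have := Real.add_one_le_exp (l / (2 * C₁))
        linarith
      have h11 : 1 / (l / (2 * C₁)) = 2 * C₁ * (1 / l) := by
        field_simp
      rw [h11] at h10
      refine h10.trans (mul_le_mul_of_nonneg_left ?_ (by positivity))
      refine le_trans ?_ hKp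
      exact div_le_div_of_nonneg_right hK hl0.le
    have h12 := Real.exp_le_exp.2 h7
    linarith
  have iQ : Integrable (fun η => ∑ y ∈ F, Qt β h n t y η) (law 2 ρ) :=
    integrable_finsetSum _ fun y _ => Integrable.mono' (integrable_const (1 : ℝ))
      (S98.measurable_Qt β h n t y).aestronglyMeasurable (Eventually.of_forall fun η => by
        rw [Real.norm_eq_abs]
        exact S98.Qt_abs hd β h htn y η)
  have j1 : Integrable (B1.indicator (fun _ => (1 : ℝ))) (law 2 ρ) :=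
    (integrable_const (1 : ℝ)).indicator m1
  have j2 : Integrable (B2.indicator (fun _ => (1 : ℝ))) (law 2 ρ) :=
    (integrable_const (1 : ℝ)).indicator m2
  have j3 : Integrable (B3.indicator (fun _ => (1 : ℝ))) (law 2 ρ) :=
    (integrable_const (1 : ℝ)).indicator m3
  have j23 : Integrable (fun η => B2.indicator (fun _ => (1 : ℝ)) η +
      B3.indicator (fun _ => (1 : ℝ)) η) (law 2 ρ) := j2.add j3
  have j123 : Integrable (fun η => B1.indicator (fun _ => (1 : ℝ)) η +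
      (B2.indicator (fun _ => (1 : ℝ)) η + B3.indicator (fun _ => (1 : ℝ)) η)) (law 2 ρ) :=
    j1.add j23
  have hfin := integral_mono iQ ((integrable_const (2 * C₁ * p)).add j123) hpt
  have hval : ∫ η, (2 * C₁ * p + (B1.indicator (fun _ => (1 : ℝ)) η +
      (B2.indicator (fun _ => (1 : ℝ)) η + B3.indicator (fun _ => (1 : ℝ)) η))) ∂(law 2 ρ) =
      2 * C₁ * p + ((law 2 ρ).real B1 + ((law 2 ρ).real B2 + (law 2 ρ).real B3)) := by
    rw [integral_add (integrable_const _) j123, integral_add j1 j23, integral_add j2 j3,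
      integral_indicator_const (1 : ℝ) m1, integral_indicator_const (1 : ℝ) m2,
      integral_indicator_const (1 : ℝ) m3]
    simp
  have h13 := hfin.trans (le_of_eq hval)
  have h14 : 2 * C₁ * p + (C₁ * p + 16 * C₁ ^ 2 * p) ≤ 19 * C₁ ^ 2 * p := by
    have h15 : C₁ * p ≤ C₁ ^ 2 * p := by
      refine mul_le_mul_of_nonneg_right ?_ hp0
      nlinarith
    nlinarith
  linarith

end L2

open E2 L2 in
/-- **LEAKO**, from EHRU and TOPO. -/
theorem leakO2 {ρ : Measure ℝ} [IsProbabilityMeasure ρ] (hρ : EM ρ) {β : ℝ} (hE : EhrU 2 ρ β)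
    (hT : TopO 2 ρ β) : LeakO ρ β := by
  classical
  intro g hg
  obtain ⟨C₁, hC₁, hE⟩ := hE
  obtain ⟨C₂, hC₂, hT⟩ := hT g hg
  have hC₁0 : 0 < C₁ := by linarith
  have hC₂0 : 0 < C₂ := by linarith
  have hC11 : 1 ≤ C₁ ^ 2 := one_le_pow₀ hC₁
  obtain ⟨C, hC⟩ : ∃ C, C = 200 * C₁ ^ 2 * C₂ := ⟨_, rfl⟩
  have c1 : 200 * C₁ ^ 2 ≤ C := by
    rw [hC]
    nlinarith
  have c2 : 200 * C₂ ≤ C := by
    rw [hC]
    nlinarith
  have c3 : C₁ ≤ C := by nlinarith
  have c4 : 8 * C₁ * C₂ ≤ C := by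
    rw [hC]
    have : C₁ * C₂ ≤ C₁ ^ 2 * C₂ := mul_le_mul_of_nonneg_right (by nlinarith) hC₂0.le
    nlinarith
  refine ⟨C, by linarith, ?_⟩
  intro h v n t K r w hgap hn htn hK hr hw hCK hV hsd hv
  have hd : 0 < 2 := by norm_num
  have hn1 : (1 : ℝ) ≤ n := by exact_mod_cast hn
  have hn0 : (0 : ℝ) < n := by linarith
  obtain ⟨l, hl⟩ : ∃ l, l = r * w / 2 := ⟨_, rfl⟩
  have hrw0 : 0 < r * w := mul_pos hr hw
  have hl0 : 0 < l := by rw [hl]; positivity
  have hcl : 4 * C₁ * C₂ * K ≤ l := by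
    have h1 : 8 * C₁ * C₂ * K ≤ C * K := mul_le_mul_of_nonneg_right c4 (by linarith)
    rw [hl]
    linarith
  have hn4 : (n : ℝ) ≤ (n : ℝ) ^ 4 := by
    calc (n : ℝ) = (n : ℝ) ^ 1 := (pow_one _).symm
      _ ≤ (n : ℝ) ^ 4 := pow_le_pow_right₀ hn1 (by norm_num)
  have hVn : ∀ k : ℕ, k ≤ n → Va ρ β h k ≤ K := by
    intro k hk
    refine (hV k ?_).1
    have h1 : (k : ℝ) ≤ n := by exact_mod_cast hk
    nlinarith
  have hTop := hT h hgap n t K hn htn hK fun k hk => hV k (hk.trans (by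
    have e : (n : ℝ) ^ (2 + 2) = (n : ℝ) ^ 4 := by norm_num
    rw [e]
    refine mul_le_mul_of_nonneg_right ?_ (by positivity)
    linarith))
  -- the four sides
  have hside : ∀ (j : Fin 2) (s : ℝ), (s = 1 ∨ s = -1) →
      ∫ η, ∑ y ∈ (boxF 2 t).filter (fun y => w ≤ s * (emb y - v) j), Qt β h n t y η ∂(law 2 ρ) ≤
        19 * C₁ ^ 2 * (K / l) ^ (1 / C₁) + C₂ / n := by
    intro j s hs
    refine side2 hρ hC₁ hC₂ hE (l := l) (u := (s * r) • ej j) (B := s * r * v j + r * w) htn hK hcl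
      (hVn t htn) (hVn n le_rfl) hTop (Finset.filter_subset _ _) ?_ ?_
    · intro y hy
      have h1 := (Finset.mem_filter.1 hy).2
      rw [real_inner_smul_left, inner_ej94]
      have h2 : (emb y - v) j = emb y j - v j := by simp
      rw [h2] at h1
      have h3 := mul_le_mul_of_nonneg_left h1 hr.le
      linarith
    · have h1 := hsd j
      have h2 := hv (h + (-(s * r)) • ej j)
      rw [add_sub_cancel_left, real_inner_smul_right, real_inner_comm, inner_ej94] at h2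
      rcases hs with hs | hs
      · rw [hs] at h2 ⊢
        have e1 : h + (-(1 * r)) • ej j = h - r • ej j := by
          rw [one_mul, neg_smul, sub_eq_add_neg]
        have e2 : h + (1 * r) • ej j = h + r • ej j := by rw [one_mul]
        rw [e1] at h2
        rw [e2]
        linarith
      · rw [hs] at h2 ⊢
        have e1 : h + (-(-1 * r)) • ej j = h + r • ej j := by
          congr 2
          ring
        have e2 : h + (-1 * r) • ej j = h - r • ej j := by
          rw [neg_one_mul, neg_smul, sub_eq_add_neg]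
        rw [e1] at h2
        rw [e2]
        linarith
  have iQ : ∀ T : Finset (Site 2), Integrable (fun η => ∑ y ∈ T, Qt β h n t y η) (law 2 ρ) :=
    fun T => integrable_finsetSum _ fun y _ => Integrable.mono' (integrable_const (1 : ℝ))
      (S98.measurable_Qt β h n t y).aestronglyMeasurable (Eventually.of_forall fun η => by
        rw [Real.norm_eq_abs]
        exact S98.Qt_abs hd β h htn y η)
  obtain ⟨G, hG⟩ : ∃ G : Fin 2 → ℝ → Finset (Site 2),
      G = fun j s => (boxF 2 t).filter (fun y => w ≤ s * (emb y - v) j) := ⟨_, rfl⟩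
  have hsideG : ∀ (j : Fin 2) (s : ℝ), (s = 1 ∨ s = -1) →
      ∫ η, ∑ y ∈ G j s, Qt β h n t y η ∂(law 2 ρ) ≤
        19 * C₁ ^ 2 * (K / l) ^ (1 / C₁) + C₂ / n := by
    rw [hG]
    exact hside
  have hpt : ∀ η : Env 2, 1 - ∑ y ∈ (boxF 2 t).filter (fun y => ∀ j, |(emb y - v) j| < w),
      Qt β h n t y η ≤ (∑ y ∈ G 0 1, Qt β h n t y η + ∑ y ∈ G 0 (-1), Qt β h n t y η) +
        (∑ y ∈ G 1 1, Qt β h n t y η + ∑ y ∈ G 1 (-1), Qt β h n t y η) := by
    intro η
    have hQ0 : ∀ y, 0 ≤ Qt β h n t y η := fun y => S98.Qt_nonneg hd β h n t y η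
    have hone := S98.Qt_sum hd β h htn η
    rw [← Finset.sum_sdiff (Finset.filter_subset (fun y => ∀ j, |(emb y - v) j| < w)
      (boxF 2 t))] at hone
    have hone' : 1 - ∑ y ∈ (boxF 2 t).filter (fun y => ∀ j, |(emb y - v) j| < w),
        Qt β h n t y η = ∑ y ∈ boxF 2 t \ (boxF 2 t).filter (fun y => ∀ j, |(emb y - v) j| < w),
        Qt β h n t y η := by linarith
    rw [hone']
    have hsub : boxF 2 t \ (boxF 2 t).filter (fun y => ∀ j, |(emb y - v) j| < w) ⊆
        (G 0 1 ∪ G 0 (-1)) ∪ (G 1 1 ∪ G 1 (-1)) := by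
      intro y hy
      rw [Finset.mem_sdiff, Finset.mem_filter, not_and, not_forall] at hy
      obtain ⟨hy1, hy2⟩ := hy
      obtain ⟨j, hj⟩ := hy2 hy1
      have hj' := not_lt.1 hj
      have hor : w ≤ 1 * (emb y - v) j ∨ w ≤ -1 * (emb y - v) j := by
        rcases le_abs'.1 hj' with h1 | h1
        · right
          linarith
        · left
          linarith
      simp only [hG, Finset.mem_union, Finset.mem_filter]
      fin_cases j
      · rcases hor with h1 | h1
        · exact Or.inl (Or.inl ⟨hy1, h1⟩)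
        · exact Or.inl (Or.inr ⟨hy1, h1⟩)
      · rcases hor with h1 | h1
        · exact Or.inr (Or.inl ⟨hy1, h1⟩)
        · exact Or.inr (Or.inr ⟨hy1, h1⟩)
    have hun : ∀ S T : Finset (Site 2), ∑ y ∈ S ∪ T, Qt β h n t y η ≤
        ∑ y ∈ S, Qt β h n t y η + ∑ y ∈ T, Qt β h n t y η := by
      intro S T
      have h1 := Finset.sum_union_inter (s₁ := S) (s₂ := T) (f := fun y => Qt β h n t y η)
      have h2 : 0 ≤ ∑ y ∈ S ∩ T, Qt β h n t y η := Finset.sum_nonneg fun y _ => hQ0 y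
      linarith
    refine (Finset.sum_le_sum_of_subset_of_nonneg hsub fun y _ _ => hQ0 y).trans ?_
    exact (hun _ _).trans (add_le_add (hun _ _) (hun _ _))
  have iG : Integrable (fun η => (∑ y ∈ G 0 1, Qt β h n t y η + ∑ y ∈ G 0 (-1), Qt β h n t y η) +
      (∑ y ∈ G 1 1, Qt β h n t y η + ∑ y ∈ G 1 (-1), Qt β h n t y η)) (law 2 ρ) :=
    ((iQ _).add (iQ _)).add ((iQ _).add (iQ _))
  have hint := integral_mono ((integrable_const (1 : ℝ)).sub (iQ _)) iG hpt
  have hval : ∫ η, ((∑ y ∈ G 0 1, Qt β h n t y η + ∑ y ∈ G 0 (-1), Qt β h n t y η) +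
      (∑ y ∈ G 1 1, Qt β h n t y η + ∑ y ∈ G 1 (-1), Qt β h n t y η)) ∂(law 2 ρ) =
      (∫ η, ∑ y ∈ G 0 1, Qt β h n t y η ∂(law 2 ρ) +
        ∫ η, ∑ y ∈ G 0 (-1), Qt β h n t y η ∂(law 2 ρ)) +
      (∫ η, ∑ y ∈ G 1 1, Qt β h n t y η ∂(law 2 ρ) +
        ∫ η, ∑ y ∈ G 1 (-1), Qt β h n t y η ∂(law 2 ρ)) := by
    have k1 : Integrable (fun η => ∑ y ∈ G 0 1, Qt β h n t y η +
      ∑ y ∈ G 0 (-1), Qt β h n t y η) (law 2 ρ) := (iQ _).add (iQ _)
    have k2 : Integrable (fun η => ∑ y ∈ G 1 1, Qt β h n t y η +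
      ∑ y ∈ G 1 (-1), Qt β h n t y η) (law 2 ρ) := (iQ _).add (iQ _)
    rw [integral_add k1 k2, integral_add (iQ _) (iQ _), integral_add (iQ _) (iQ _)]
  refine (hint.trans (le_of_eq hval)).trans ?_
  have s1 := hsideG 0 1 (Or.inl rfl)
  have s2 := hsideG 0 (-1) (Or.inr rfl)
  have s3 := hsideG 1 1 (Or.inl rfl)
  have s4 := hsideG 1 (-1) (Or.inr rfl)
  -- the numbers
  obtain ⟨x, hx⟩ : ∃ x, x = K / (r * w) := ⟨_, rfl⟩
  have hx0 : 0 < x := by rw [hx]; positivity
  have hx1 : x ≤ 1 := by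
    rw [hx, div_le_one hrw0]
    nlinarith
  have e1 : K / l = 2 * x := by
    rw [hl, hx]
    field_simp
  rw [e1] at s1 s2 s3 s4
  have h1 : (2 * x) ^ (1 / C₁) ≤ 2 * x ^ (1 / C) := by
    rw [Real.mul_rpow (by norm_num) hx0.le]
    have h2 : (2 : ℝ) ^ (1 / C₁) ≤ 2 := by
      calc (2 : ℝ) ^ (1 / C₁) ≤ 2 ^ (1 : ℝ) := by
            refine Real.rpow_le_rpow_of_exponent_le (by norm_num) ?_
            rw [div_le_one hC₁0]
            exact hC₁
        _ = 2 := Real.rpow_one 2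
    have h3 : x ^ (1 / C₁) ≤ x ^ (1 / C) := by
      refine Real.rpow_le_rpow_of_exponent_ge hx0 hx1 ?_
      exact div_le_div_of_nonneg_left (by norm_num) hC₁0 c3
    exact mul_le_mul h2 h3 (Real.rpow_nonneg hx0.le _) (by norm_num)
  rw [← hx]
  have h4 : 0 ≤ x ^ (1 / C) := Real.rpow_nonneg hx0.le _
  have h5 : 19 * C₁ ^ 2 * (2 * x) ^ (1 / C₁) ≤ 38 * C₁ ^ 2 * x ^ (1 / C) := by
    have := mul_le_mul_of_nonneg_left h1 (show 0 ≤ 19 * C₁ ^ 2 by positivity)
    linarith
  have h6 : 4 * (38 * C₁ ^ 2 * x ^ (1 / C)) ≤ C * x ^ (1 / C) := by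
    have : 4 * (38 * C₁ ^ 2) ≤ C := by linarith
    have := mul_le_mul_of_nonneg_right this h4
    linarith
  have h7 : 4 * (C₂ / n) ≤ C / n := by
    rw [← mul_div_assoc]
    exact div_le_div_of_nonneg_right (by linarith) hn0.le
  linarith

end Pool.Agent.W_7d29a1_OT
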