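import Pool.Agent.W_7d29a1_OT.MainO43

/-!
Theorem OT with a power in the place of the curvature: the plug and the letters of the problem
(helper43).
-/

namespace Pool.Agent.W_7d29a1_OT

open MeasureTheory ProbabilityTheory Filter Topology Pool.Agent.W_MP_7d29a1_pr
  Pool.Agent.W_7d29a1_h46 Pool.Agent.W_7d29a1_h46u Pool.Agent.W_7d29a1_D2
  Pool.Agent.W_7d29a1_D2.B35
  Pool.Agent.W_7d29a1_Q29 Pool.Agent.W_7d29a1_R34 Pool.Agent.W_7d29a1_SP Pool.Agent.W_7d29a1_PL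
  Pool.Agent.W_7d29a1_PA

/-- The plug, with the monotonicity of the variance. -/
theorem mainE43 {ρ : Measure ℝ} [IsProbabilityMeasure ρ] {β t : ℝ} (ht0 : 0 < t) (ht1 : t < 1)
    (hM : Pool.Agent.W_7d29a1_NR.MonP 2 ρ β t) (hO : MaxE ρ β) : MainE ρ β := by
  intro h hV
  obtain ⟨e, he, H⟩ := hO h hV
  refine ⟨e, he, fun hC => ?_⟩
  obtain ⟨c, hc, hn⟩ := H hC
  exact ⟨c / 2, by linarith,
    Pool.Agent.W_7d29a1_NR.monAll43 ht0 ht1 hM h (by linarith) (by linarith) hn⟩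

/-- The plug, every law. -/
theorem mainEU43 {ρ : Measure ℝ} [IsProbabilityMeasure ρ] {β : ℝ} (hρ : EM ρ)
    (hnc : ∀ c : ℝ, ρ {c} ≠ 1) (hβ : 0 < β) (hO : MaxE ρ β) : MainE ρ β := by
  obtain ⟨t, ht0, ht1, hM⟩ :=
    Pool.Agent.W_7d29a1_NR.monU44 (d := 2) (ρ := ρ) (β := β) (by norm_num) hρ hnc hβ
  exact mainE43 ht0 ht1 hM hO

/-- A power larger than the given one is smaller near `0`. -/
lemma pow_small43 {M p q : ℝ} (hpq : q < p) : ∃ δ : ℝ, 0 < δ ∧ ∀ r : ℝ, 0 < r → r ≤ δ →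
    M * r ^ p ≤ r ^ q := by
  have he : 0 < p - q := by linarith
  obtain ⟨δ, hδ⟩ : ∃ δ : ℝ, δ = (1 / (|M| + 1)) ^ (1 / (p - q)) := ⟨_, rfl⟩
  have hb : (0 : ℝ) < 1 / (|M| + 1) := by positivity
  refine ⟨δ, by rw [hδ]; exact Real.rpow_pos_of_pos hb _, fun r hr hrδ => ?_⟩
  have h1 : r ^ (p - q) ≤ 1 / (|M| + 1) := by
    calc r ^ (p - q) ≤ δ ^ (p - q) := Real.rpow_le_rpow hr.le hrδ he.le
      _ = 1 / (|M| + 1) := by
          rw [hδ, ← Real.rpow_mul hb.le, one_div_mul_cancel he.ne', Real.rpow_one]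
  have h2 : r ^ p = r ^ (p - q) * r ^ q := by
    rw [← Real.rpow_add hr]
    congr 1
    ring
  have h3 : M * r ^ (p - q) ≤ 1 := by
    have h4 : M * r ^ (p - q) ≤ (|M| + 1) * r ^ (p - q) :=
      mul_le_mul_of_nonneg_right (by linarith [le_abs_self M]) (Real.rpow_nonneg hr.le _)
    have h5 : (|M| + 1) * r ^ (p - q) ≤ (|M| + 1) * (1 / (|M| + 1)) :=
      mul_le_mul_of_nonneg_left h1 (by positivity)
    have h6 : (|M| + 1) * (1 / (|M| + 1)) = 1 := mul_one_div_cancel (by positivity)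
    linarith
  rw [h2, ← mul_assoc]
  exact (mul_le_mul_of_nonneg_right h3 (Real.rpow_nonneg hr.le _)).trans (le_of_eq (one_mul _))

/-- The power form contains the form with the curvature. -/
theorem mainO_of_E43 {ρ : Measure ℝ} {β : ℝ} (hE : MainE ρ β) : MainO ρ β := by
  rintro h hV ⟨M, δ, hδ, hC⟩
  obtain ⟨e, he, H⟩ := hE h hV
  refine H ?_
  obtain ⟨δ', hδ', hp⟩ := pow_small43 (M := M) (show 2 - e < 2 by linarith)
  refine ⟨min δ δ', lt_min hδ hδ', fun r hr hrδ j => ?_⟩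
  have h1 := hC r hr (hrδ.trans (min_le_left _ _)) j
  have h2 := hp r hr (hrδ.trans (min_le_right _ _))
  rw [Real.rpow_two] at h2
  exact h1.trans h2

/-- The second differences of `L` at `h` along the axes exceed `r ^ (2 - e)` for arbitrarily small
`r`. -/
def InE {d : ℕ} (L : Vec d → ℝ) (h : Vec d) (e : ℝ) : Prop :=
  ∀ δ : ℝ, 0 < δ → ∃ r : ℝ, 0 < r ∧ r ≤ δ ∧ ∃ j : Fin d,
    r ^ (2 - e) < L (h + r • ej j) + L (h - r • ej j) - 2 * L h

lemma curE_of_not43 {ρ : Measure ℝ} {β : ℝ} {h : Vec 2} {e : ℝ} (hI : ¬ InE (lamN ρ β) h e) :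
    ∃ δ : ℝ, 0 < δ ∧ CurE ρ β h e δ := by
  unfold InE at hI
  push Not at hI
  obtain ⟨δ, hδ, H⟩ := hI
  refine ⟨δ, hδ, fun r hr hrδ j => ?_⟩
  have h1 := H r hr hrδ j
  unfold lamN at h1
  linarith

lemma notE_of_up43 {d : ℕ} {L : Vec d → ℝ} {h v : Vec d} {p e : ℝ} (hp : 2 - e < p)
    (hU : UpG L h v p) : ¬ InE L h e := by
  intro hI
  obtain ⟨C, δ, hδ, H⟩ := hU
  obtain ⟨δ', hδ', hp'⟩ := pow_small43 (M := 2 * C) hp
  obtain ⟨r, hr, hrδ, j, hj⟩ := hI (min δ δ') (lt_min hδ hδ')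
  have hn : ‖r • (ej j : Vec d)‖ = r := by
    rw [norm_smul, Real.norm_of_nonneg hr.le]
    unfold ej
    rw [PiLp.norm_single, norm_one, mul_one]
  have hrδ1 := hrδ.trans (min_le_left _ _)
  have h1 := H (r • ej j) (by rw [hn]; exact hrδ1)
  have h2 := H (-(r • ej j)) (by rw [norm_neg, hn]; exact hrδ1)
  have h3 := hp' r hr (hrδ.trans (min_le_right _ _))
  unfold gap at h1 h2
  rw [norm_neg, inner_neg_right, ← sub_eq_add_neg, hn] at h2
  rw [hn] at h1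
  linarith

variable {Ω : Type*} [MeasurableSpace Ω] {μ : Measure Ω} [IsProbabilityMeasure μ]
  {ρ : Measure ℝ} [IsProbabilityMeasure ρ] {β : ℝ} {d : ℕ} {ω : ℕ × Site d → Ω → ℝ}

/-- The theorem in the letters of the problem: the exponent. -/
theorem chiE43 (hd : d = 2) (hω : IID μ ρ ω) (hρ : EM ρ) (hM : MainE ρ β) (h : Vec d)
    (hh : lamN ρ β h < annN ρ β h) :
    ∃ e : ℝ, 0 < e ∧ (0 < chiT μ β ω h ∨ InE (lamN ρ β) h e) := by
  subst hd
  obtain ⟨e, he, H⟩ := hM h ((vsd29 h).1 hh)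
  refine ⟨e, he, ?_⟩
  by_cases hI : InE (lamN ρ β) h e
  · exact Or.inr hI
  · obtain ⟨c, hc, hn⟩ := H (curE_of_not43 hI)
    have := le_chi43 (by norm_num) hω hρ h hc hn
    exact Or.inl (by linarith)

/-- The theorem in the letters of the problem: the variance. -/
theorem varE43 (hd : d = 2) (hω : IID μ ρ ω) (hρ : EM ρ) (hM : MainE ρ β) (h : Vec d)
    (hh : lamN ρ β h < annN ρ β h) : ∃ e : ℝ, 0 < e ∧ ((∃ c : ℝ, 0 < c ∧ ∀ᶠ n : ℕ in atTop,
      (n : ℝ) ^ c ≤ Var[fun x => Real.log (Zn β h (fun p => ω p x) n); μ]) ∨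
      InE (lamN ρ β) h e) := by
  subst hd
  obtain ⟨e, he, H⟩ := hM h ((vsd29 h).1 hh)
  refine ⟨e, he, ?_⟩
  by_cases hI : InE (lamN ρ β) h e
  · exact Or.inr hI
  · obtain ⟨c, hc, hn⟩ := H (curE_of_not43 hI)
    refine Or.inl ⟨c, hc, ?_⟩
    filter_upwards [hn] with n hn'
    rw [var29 (by norm_num) hω hρ h n]
    exact hn'

/-- **Every tilt and every slope**: the exponent of the problem is positive or the growth exponent
of the free energy is smaller than `2`. -/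
theorem gamE43 (hd : d = 2) (hω : IID μ ρ ω) (hρ : EM ρ) (hM : MainE ρ β) (h v : Vec d)
    (hh : lamN ρ β h < annN ρ β h) : 0 < chiT μ β ω h ∨ gam (lamN ρ β) h v < 2 := by
  obtain ⟨e, he, H⟩ := chiE43 (μ := μ) hd hω hρ hM h hh
  rcases H with H | H
  · exact Or.inl H
  · refine Or.inr ?_
    by_contra hcon
    have h2 : 2 ≤ gam (lamN ρ β) h v := not_lt.1 hcon
    unfold gam at h2
    have hne : {p : ℝ | 1 ≤ p ∧ UpG (lamN ρ β) h v p}.Nonempty := by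
      by_contra hemp
      rw [Set.not_nonempty_iff_eq_empty.1 hemp, Real.sSup_empty] at h2
      linarith
    obtain ⟨p, ⟨-, hp⟩, hpe⟩ := exists_lt_of_lt_csSup hne (show 2 - e < _ by linarith)
    exact notE_of_up43 hpe hp H

end Pool.Agent.W_7d29a1_OT
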