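import Pool.Agent.W_7d29a1_OT.DefsOT
import Pool.Agent.W_7d29a1_SP.Bas15
import Pool.Agent.W_MP_7d29a1_pr.Path

/-!
TOPO: no site of the box has a large free energy (helper94).
-/

set_option autoImplicit false

namespace Pool.Agent.W_7d29a1_OT

open MeasureTheory ProbabilityTheory Filter Topology Pool.Agent.W_MP_7d29a1_pr
  Pool.Agent.W_7d29a1_h46 Pool.Agent.W_7d29a1_h46u Pool.Agent.W_7d29a1_D2.B35
  Pool.Agent.W_7d29a1_Q29 Pool.Agent.W_7d29a1_R34 Pool.Agent.W_7d29a1_SP Pool.Agent.W_7d29a1_PL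

variable {d : ℕ} {ρ : Measure ℝ} [IsProbabilityMeasure ρ]

/-- One site. -/
lemma one94 (hd : 0 < d) (hρ : EM ρ) {β : ℝ} {h : Vec d} {C₁ : ℝ} (hC₁ : 1 ≤ C₁)
    (hcnt : ∀ (m T : ℕ) (x q Φ : ℝ), 1 ≤ m → 0 < q →
      q ≤ (law d ρ).real {η | A ρ β h m + x ≤ X β h η m} → C₁ * m / q ≤ T →
      (∀ k : ℕ, k ≤ T → En ρ β h k ≤ Φ ∧ Fn ρ β h k ≤ Φ) → x ≤ C₁ * (Φ + 1))
    {n m : ℕ} {K : ℝ} (hn : 1 ≤ n) (hm : m ≤ n) (hK : 1 ≤ K)
    (hV : ∀ k : ℕ, (k : ℝ) ≤ 4 * 3 ^ d * C₁ * (n : ℝ) ^ (d + 2) →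
      Va ρ β h k ≤ K ∧ En ρ β h k ≤ K) :
    (law d ρ).real {η | A ρ β h m + 4 * 3 ^ d * C₁ * K < X β h η m} ≤
      1 / (2 * 3 ^ d * (n : ℝ) ^ (d + 1)) := by
  have hn1 : (1 : ℝ) ≤ n := by exact_mod_cast hn
  have h3 : (1 : ℝ) ≤ 3 ^ d := one_le_pow₀ (by norm_num)
  have hC0 : 0 < 4 * 3 ^ d * C₁ := by positivity
  rcases Nat.eq_zero_or_pos m with hm0 | hm0
  · subst hm0
    have h1 : {η : Env d | A ρ β h 0 + 4 * 3 ^ d * C₁ * K < X β h η 0} = ∅ := by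
      ext η
      simp only [Set.mem_ofPred_eq, Set.mem_empty_iff_false, iff_false, not_lt]
      have h2 : X β h η 0 = 0 := by
        unfold X
        rw [Z_zero, Real.log_one]
      rw [h2, A_zero15]
      positivity
    rw [h1, measureReal_empty]
    positivity
  by_contra hcon
  rw [not_le] at hcon
  obtain ⟨q, hq⟩ : ∃ q : ℝ, q = 1 / (2 * 3 ^ d * (n : ℝ) ^ (d + 1)) := ⟨_, rfl⟩
  have hq0 : 0 < q := by
    rw [hq]
    positivity
  rw [← hq] at hcon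
  obtain ⟨y, hy⟩ : ∃ y : ℝ, y = 4 * 3 ^ d * C₁ * (n : ℝ) ^ (d + 2) := ⟨_, rfl⟩
  have hnp : (1 : ℝ) ≤ (n : ℝ) ^ (d + 2) := one_le_pow₀ hn1
  have hy1 : 1 ≤ y := by
    rw [hy]
    have h4 : 1 ≤ 4 * 3 ^ d * C₁ := by nlinarith
    nlinarith
  obtain ⟨T, hT⟩ : ∃ T : ℕ, T = ⌊y⌋₊ := ⟨_, rfl⟩
  have hT1 : (T : ℝ) ≤ y := by
    rw [hT]
    exact Nat.floor_le (by linarith)
  have hT2 : y / 2 ≤ T := by
    have h4 : y < (⌊y⌋₊ : ℝ) + 1 := Nat.lt_floor_add_one y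
    have h5 : (1 : ℝ) ≤ (⌊y⌋₊ : ℝ) := by
      have h6 : 1 ≤ ⌊y⌋₊ := Nat.le_floor (by simpa using hy1)
      exact_mod_cast h6
    rw [hT]
    linarith
  have hk := hcnt m T (4 * 3 ^ d * C₁ * K) q K hm0 hq0
    (hcon.le.trans (measureReal_mono fun η hη => by
      have h4 : A ρ β h m + 4 * 3 ^ d * C₁ * K < X β h η m := hη
      exact h4.le)) (by
      refine le_trans ?_ hT2
      have hm1 : (m : ℝ) ≤ n := by exact_mod_cast hm
      have e1 : C₁ * (m : ℝ) / q = C₁ * m * (2 * 3 ^ d * (n : ℝ) ^ (d + 1)) := by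
        rw [hq]
        field_simp
      have e2 : y / 2 = C₁ * n * (2 * 3 ^ d * (n : ℝ) ^ (d + 1)) := by
        rw [hy]
        ring
      rw [e1, e2]
      refine mul_le_mul_of_nonneg_right ?_ (by positivity)
      exact mul_le_mul_of_nonneg_left hm1 (by linarith)) fun k hkT => by
      have h4 : (k : ℝ) ≤ 4 * 3 ^ d * C₁ * (n : ℝ) ^ (d + 2) := by
        rw [← hy]
        refine le_trans ?_ hT1
        exact_mod_cast hkT
      obtain ⟨h5, h6⟩ := hV k h4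
      refine ⟨h6, ?_⟩
      have h7 := Fn_sq15 (ρ := ρ) hd hρ β h k
      have h8 : Fn ρ β h k ^ 2 ≤ K ^ 2 := by nlinarith
      exact (pow_le_pow_iff_left₀ (Fn_nonneg15 β h k) (by linarith) two_ne_zero).1 h8
  have h5 : C₁ * (K + 1) ≤ 2 * (C₁ * K) := by nlinarith
  have h6 : 0 < C₁ * K := by positivity
  nlinarith

/-- **TOPO.** -/
theorem topO94 (hd : 0 < d) (hρ : EM ρ) {β : ℝ} (hL : LocE d ρ β) (hC : CntP d ρ β) :
    TopO d ρ β := by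
  intro g hg
  obtain ⟨c₀, hc₀, hloc⟩ := hL g hg
  obtain ⟨C₁, hC₁, hcnt⟩ := hC c₀ hc₀
  have h3 : (1 : ℝ) ≤ 3 ^ d := one_le_pow₀ (by norm_num)
  have hC0 : 0 < 4 * 3 ^ d * C₁ := by positivity
  have hC1 : 1 ≤ 4 * 3 ^ d * C₁ := by nlinarith
  refine ⟨4 * 3 ^ d * C₁, hC1, fun h hgap n t K hn ht hK hV => ?_⟩
  have hn1 : (1 : ℝ) ≤ n := by exact_mod_cast hn
  have hn0 : (0 : ℝ) < n := by linarith
  have h1 : Loc1 ρ β h c₀ := hloc h hgap
  have hone := one94 hd hρ hC₁ (fun m T x q Φ => hcnt h h1 m T x q Φ) hn (Nat.sub_le n t) hK hV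
  have hms : MeasurableSet {η : Env d | A ρ β h (n - t) + 4 * 3 ^ d * C₁ * K < X β h η (n - t)} :=
    measurableSet_lt measurable_const (measurable_X β h (n - t))
  have e1 : {η : Env d | ∃ y ∈ boxF d t,
      A ρ β h (n - t) + 4 * 3 ^ d * C₁ * K < X β h (sh t y η) (n - t)} =
      ⋃ y ∈ boxF d t, {η : Env d | A ρ β h (n - t) + 4 * 3 ^ d * C₁ * K <
        X β h (sh t y η) (n - t)} := by
    ext η
    simp
  rw [e1]
  refine (measureReal_biUnion_finset_le _ _).trans ?_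
  have h2 : ∀ y ∈ boxF d t, (law d ρ).real {η : Env d | A ρ β h (n - t) + 4 * 3 ^ d * C₁ * K <
      X β h (sh t y η) (n - t)} ≤ 1 / (2 * 3 ^ d * (n : ℝ) ^ (d + 1)) := by
    intro y _
    have e2 : (law d ρ).real {η : Env d | A ρ β h (n - t) + 4 * 3 ^ d * C₁ * K <
        X β h (sh t y η) (n - t)} =
        (law d ρ).real {η : Env d | A ρ β h (n - t) + 4 * 3 ^ d * C₁ * K < X β h η (n - t)} := by
      rw [measureReal_def, measureReal_def, ← (mp_sh (ρ := ρ) t y).measure_preimage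
        hms.nullMeasurableSet]
      rfl
    rw [e2]
    exact hone
  refine (Finset.sum_le_sum h2).trans ?_
  rw [Finset.sum_const, nsmul_eq_mul, card_boxF]
  have h4 : (((2 * t + 1) ^ d : ℕ) : ℝ) ≤ (3 * (n : ℝ)) ^ d := by
    push_cast
    refine pow_le_pow_left₀ (by positivity) ?_ d
    have h5 : (t : ℝ) ≤ n := by exact_mod_cast ht
    linarith
  refine (mul_le_mul_of_nonneg_right h4 (by positivity)).trans ?_
  have e3 : (3 * (n : ℝ)) ^ d * (1 / (2 * 3 ^ d * (n : ℝ) ^ (d + 1))) = 1 / 2 / n := by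
    rw [mul_pow, pow_succ]
    field_simp
  rw [e3]
  refine div_le_div_of_nonneg_right ?_ hn0.le
  linarith

end Pool.Agent.W_7d29a1_OT
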