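import Pool.Agent.W_7d29a1_OT.EhrU81
import Pool.Agent.W_7d29a1_OT.Leak2
import Pool.Agent.W_7d29a1_OT.TopO94
import Pool.Agent.W_7d29a1_OT.BudE96
import Pool.Agent.W_7d29a1_OT.MaxE24
import Pool.Agent.W_7d29a1_OT.MainE43
import Pool.Agent.W_7d29a1_PA.EnN33
import Pool.Agent.W_7d29a1_PA.CorN43
import Pool.Agent.W_7d29a1_NR.NrAll86
import Pool.Agent.W_7d29a1_PL.FinX73
import Pool.Agent.W_7d29a1_L2.All81

/-!
Theorem OT: the variance at one tilt with a finite upper second difference of the free energy, in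
two transversal dimensions, every law with exponential moments (helper81): assembly.
-/

namespace Pool.Agent.W_7d29a1_OT

open MeasureTheory ProbabilityTheory Filter Topology Pool.Agent.W_MP_7d29a1_pr
  Pool.Agent.W_7d29a1_h46 Pool.Agent.W_7d29a1_h46u Pool.Agent.W_7d29a1_D2.B35
  Pool.Agent.W_7d29a1_Q29 Pool.Agent.W_7d29a1_R34 Pool.Agent.W_7d29a1_SP Pool.Agent.W_7d29a1_PL
  Pool.Agent.W_7d29a1_PA Pool.Agent.W_7d29a1_NR

section Law

variable {ρ : Measure ℝ} [IsProbabilityMeasure ρ]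

/-- The leak of a window, every law. -/
theorem leakOU81 (hρ : EM ρ) (hnc : ∀ c : ℝ, ρ {c} ≠ 1) {β : ℝ} (hβ : 0 < β) : LeakO ρ β := by
  have hd : 0 < 2 := by norm_num
  exact leakO2 hρ (ehrU81 hd hρ hnc hβ) (topO94 hd hρ (Csy42.loc42 hd hρ β) (cnt79 hd hρ β))

/-- The largest variance, every law. -/
theorem maxEU81 (hρ : EM ρ) (hnc : ∀ c : ℝ, ρ {c} ≠ 1) {β : ℝ} (hβ : 0 < β) : MaxE ρ β := by
  have hd : 0 < 2 := by norm_num
  exact maxE24 (budE96 hρ (leakOU81 hρ hnc hβ) (npb98 hd hρ hnc hβ))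
    (enN33 hρ (nrAll86 hd hρ hnc hβ)) (corN43 hρ (corU73 hd hρ hnc hβ))

/-- **Theorem OT**, with a power in the place of the curvature, every law. -/
theorem mainEU81 (hρ : EM ρ) (hnc : ∀ c : ℝ, ρ {c} ≠ 1) {β : ℝ} (hβ : 0 < β) : MainE ρ β :=
  mainEU43 hρ hnc hβ (maxEU81 hρ hnc hβ)

/-- **Theorem OT**, every law. In dimension two, at every tilt of very strong disorder with a finite
upper second difference of the free energy, there is `c > 0` such that the variance of the logarithm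
of the partition function is at least `n ^ c` for all large `n`. -/
theorem mainOU81 (hρ : EM ρ) (hnc : ∀ c : ℝ, ρ {c} ≠ 1) {β : ℝ} (hβ : 0 < β) : MainO ρ β :=
  mainO_of_E43 (mainEU81 hρ hnc hβ)

end Law

section Letters

variable {Ω : Type*} [MeasurableSpace Ω] {μ : Measure Ω} [IsProbabilityMeasure μ]
  {ρ : Measure ℝ} [IsProbabilityMeasure ρ] {β : ℝ} {d : ℕ} {ω : ℕ × Site d → Ω → ℝ}

/-- In dimension two, at EVERY tilt `h` and for every `v`, the exponent of the problem is positive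
or the growth exponent of the free energy at `h` is smaller than `2`. -/
theorem gamU81 (hd : d = 2) (hω : IID μ ρ ω) (hρ : EM ρ) (hnc : ∀ c : ℝ, ρ {c} ≠ 1) (hβ : 0 < β)
    (h v : Vec d) : 0 < chiT μ β ω h ∨ Pool.Agent.W_7d29a1_D2.gam (lamN ρ β) h v < 2 := by
  subst hd
  exact gamE43 rfl hω hρ (mainEU81 hρ hnc hβ) h v
    ((vsd29 h).2 (Pool.Agent.W_7d29a1_L2.vsd2 hρ hnc hβ h))

/-- In dimension two, at EVERY tilt the exponent of the problem is positive or the second
differences of the free energy along the axes exceed `r ^ (2 - e)` for arbitrarily small `r`. -/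
theorem chiU81 (hd : d = 2) (hω : IID μ ρ ω) (hρ : EM ρ) (hnc : ∀ c : ℝ, ρ {c} ≠ 1) (hβ : 0 < β)
    (h : Vec d) : ∃ e : ℝ, 0 < e ∧ (0 < chiT μ β ω h ∨ InE (lamN ρ β) h e) := by
  subst hd
  exact chiE43 rfl hω hρ (mainEU81 hρ hnc hβ) h
    ((vsd29 h).2 (Pool.Agent.W_7d29a1_L2.vsd2 hρ hnc hβ h))

end Letters

end Pool.Agent.W_7d29a1_OT
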