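import Pool.Agent.W_7d29a1_OT.UniL67
import Pool.Agent.W_7d29a1_OT.FinOT81

/-!
Theorem OT, uniformly on balls of tilts, every law: the final theorems (helper67).
-/

set_option autoImplicit false

namespace Pool.Agent.W_7d29a1_OT

open MeasureTheory ProbabilityTheory Filter Topology Pool.Agent.W_MP_7d29a1_pr
  Pool.Agent.W_7d29a1_h46 Pool.Agent.W_7d29a1_h46u Pool.Agent.W_7d29a1_D2
  Pool.Agent.W_7d29a1_D2.B35
  Pool.Agent.W_7d29a1_Q29 Pool.Agent.W_7d29a1_R34 Pool.Agent.W_7d29a1_SP Pool.Agent.W_7d29a1_PL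
  Pool.Agent.W_7d29a1_PA Pool.Agent.W_7d29a1_NR

/-- One exponent for all tilts of a given gap, every law. -/
theorem mainUAll67 {ρ : Measure ℝ} [IsProbabilityMeasure ρ] (hρ : EM ρ)
    (hnc : ∀ c : ℝ, ρ {c} ≠ 1) {β : ℝ} (hβ : 0 < β) : MainU ρ β := by
  have hd : 0 < 2 := by norm_num
  exact mainUU67 hρ hnc hβ (maxU67 (budE96 hρ (leakOU81 hρ hnc hβ) (npb98 hd hρ hnc hβ))
    (enN33 hρ (nrAll86 hd hρ hnc hβ)) (corN43 hρ (corU73 hd hρ hnc hβ)))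

variable {Ω : Type*} [MeasurableSpace Ω] {μ : Measure Ω} [IsProbabilityMeasure μ]
  {ρ : Measure ℝ} [IsProbabilityMeasure ρ] {β : ℝ} {d : ℕ} {ω : ℕ × Site d → Ω → ℝ}

/-- In dimension two: on every ball of tilts there is `c > 0` such that `c ≤ χ` at EVERY tilt of the
ball where the free energy is touched from above by a power larger than `2 - c` (a parabola for
instance). -/
theorem chiP67 (hd : d = 2) (hω : IID μ ρ ω) (hρ : EM ρ) (hnc : ∀ c : ℝ, ρ {c} ≠ 1) (hβ : 0 < β)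
    (K : ℝ) : ∃ c : ℝ, 0 < c ∧ ∀ h v : Vec d, ‖h‖ ≤ K → ∀ p : ℝ, 2 - c < p →
      UpG (lam ρ β) h v p → c ≤ chiT μ β ω h := by
  subst hd
  obtain ⟨c, hc, H, -⟩ := chiK67 (μ := μ) rfl hω hρ hnc hβ (mainUAll67 hρ hnc hβ) K
  refine ⟨c, hc, fun h v hh p hp hU => (H h hh).resolve_right (notE_of_up43 hp (v := v) ?_)⟩
  obtain ⟨C, δ, hδ, h1⟩ := hU
  refine ⟨C, δ, hδ, fun r hr => ?_⟩
  have h2 := h1 r hr
  unfold gap lamN
  unfold gap at h2
  linarith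

/-- (F2) In dimension two: on every ball of tilts there is `c > 0` such that `c ≤ χ` at EVERY tilt
of the ball where the free energy is touched from above by a parabola. -/
theorem chiF67 (hd : d = 2) (hω : IID μ ρ ω) (hρ : EM ρ) (hnc : ∀ c : ℝ, ρ {c} ≠ 1) (hβ : 0 < β) :
    ∀ K : ℝ, ∃ c : ℝ, 0 < c ∧ ∀ h v : Vec d, ‖h‖ ≤ K → UpG (lam ρ β) h v 2 →
      c ≤ chiT μ β ω h := by
  intro K
  obtain ⟨c, hc, H⟩ := chiP67 (μ := μ) hd hω hρ hnc hβ K
  exact ⟨c, hc, fun h v hh hU => H h v hh 2 (by linarith) hU⟩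

/-- In dimension two: on every ball of tilts there is `c > 0` such that at almost every tilt of the
ball the variance is at least `n ^ c` for all large `n`, and `c ≤ χ`. -/
theorem varF67 (hd : d = 2) (hω : IID μ ρ ω) (hρ : EM ρ) (hnc : ∀ c : ℝ, ρ {c} ≠ 1) (hβ : 0 < β)
    (K : ℝ) : ∃ c : ℝ, 0 < c ∧ ∀ᵐ h : Vec d, ‖h‖ ≤ K → c ≤ chiT μ β ω h ∧
      ∀ᶠ n : ℕ in atTop,
        (n : ℝ) ^ c ≤ Var[fun x => Real.log (Zn β h (fun p => ω p x) n); μ] := by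
  subst hd
  obtain ⟨c, hc, -, H⟩ := chiK67 (μ := μ) rfl hω hρ hnc hβ (mainUAll67 hρ hnc hβ) K
  obtain ⟨c', hc', -, H'⟩ := varK67 (μ := μ) rfl hω hρ hnc hβ (mainUAll67 hρ hnc hβ) K
  refine ⟨min c c', lt_min hc hc', ?_⟩
  filter_upwards [H, H'] with h h1 h2 hh
  refine ⟨(min_le_left _ _).trans (h1 hh), ?_⟩
  filter_upwards [h2 hh, eventually_ge_atTop 1] with n hn hn1
  have hn1' : (1 : ℝ) ≤ n := by exact_mod_cast hn1
  exact (Real.rpow_le_rpow_of_exponent_le hn1' (min_le_right _ _)).trans hn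

end Pool.Agent.W_7d29a1_OT
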