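import Pool.Agent.W_7d29a1_OT.DefsOT
import Pool.Agent.W_7d29a1_PA.Let43
import Pool.Agent.W_7d29a1_NR.MonU44

/-!
Theorem OT: from the largest variance up to `n` to the variance at `n`, and the letters of the
problem (helper43).
-/

namespace Pool.Agent.W_7d29a1_OT

open MeasureTheory ProbabilityTheory Filter Topology Pool.Agent.W_MP_7d29a1_pr
  Pool.Agent.W_7d29a1_h46 Pool.Agent.W_7d29a1_h46u Pool.Agent.W_7d29a1_D2
  Pool.Agent.W_7d29a1_D2.B35
  Pool.Agent.W_7d29a1_Q29 Pool.Agent.W_7d29a1_R34 Pool.Agent.W_7d29a1_SP Pool.Agent.W_7d29a1_PL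
  Pool.Agent.W_7d29a1_PA

/-- The plug, with the monotonicity of the variance. -/
theorem mainO43 {ρ : Measure ℝ} [IsProbabilityMeasure ρ] {β t : ℝ} (ht0 : 0 < t) (ht1 : t < 1)
    (hM : Pool.Agent.W_7d29a1_NR.MonP 2 ρ β t) (hO : MaxO ρ β) : MainO ρ β := by
  intro h hV hC
  obtain ⟨c, hc, hn⟩ := hO h hV hC
  exact ⟨c / 2, by linarith,
    Pool.Agent.W_7d29a1_NR.monAll43 ht0 ht1 hM h (by linarith) (by linarith) hn⟩

/-- The plug, every law. -/
theorem mainOU43 {ρ : Measure ℝ} [IsProbabilityMeasure ρ] {β : ℝ} (hρ : EM ρ)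
    (hnc : ∀ c : ℝ, ρ {c} ≠ 1) (hβ : 0 < β) (hO : MaxO ρ β) : MainO ρ β := by
  obtain ⟨t, ht0, ht1, hM⟩ :=
    Pool.Agent.W_7d29a1_NR.monU44 (d := 2) (ρ := ρ) (β := β) (by norm_num) hρ hnc hβ
  exact mainO43 ht0 ht1 hM hO

/-- The second differences of `L` at `h` along the axes are not bounded by a multiple of `r ^ 2`. -/
def InD {d : ℕ} (L : Vec d → ℝ) (h : Vec d) : Prop :=
  ∀ M δ : ℝ, 0 < δ → ∃ r : ℝ, 0 < r ∧ r ≤ δ ∧ ∃ j : Fin d,
    M * r ^ 2 < L (h + r • ej j) + L (h - r • ej j) - 2 * L h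

lemma cur_of_not43 {ρ : Measure ℝ} {β : ℝ} {h : Vec 2} (hI : ¬ InD (lamN ρ β) h) :
    ∃ M δ : ℝ, 0 < δ ∧ Cur ρ β h M δ := by
  unfold InD at hI
  push Not at hI
  obtain ⟨M, δ, hδ, H⟩ := hI
  refine ⟨M, δ, hδ, fun r hr hrδ j => ?_⟩
  have h1 := H r hr hrδ j
  unfold lamN at h1
  linarith

lemma not_of_up43 {d : ℕ} {L : Vec d → ℝ} {h v : Vec d} (hU : UpG L h v 2) : ¬ InD L h := by
  intro hI
  obtain ⟨C, δ, hδ, H⟩ := hU
  obtain ⟨r, hr, hrδ, j, hj⟩ := hI (2 * C) δ hδ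
  have hn : ‖r • (ej j : Vec d)‖ = r := by
    rw [norm_smul, Real.norm_of_nonneg hr.le]
    unfold ej
    rw [PiLp.norm_single, norm_one, mul_one]
  have h1 := H (r • ej j) (by rw [hn]; exact hrδ)
  have h2 := H (-(r • ej j)) (by rw [norm_neg, hn]; exact hrδ)
  unfold gap at h1 h2
  rw [norm_neg, inner_neg_right, ← sub_eq_add_neg, hn, Real.rpow_two] at h2
  rw [hn, Real.rpow_two] at h1
  linarith

variable {Ω : Type*} [MeasurableSpace Ω] {μ : Measure Ω} [IsProbabilityMeasure μ]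
  {ρ : Measure ℝ} [IsProbabilityMeasure ρ] {β : ℝ} {d : ℕ} {ω : ℕ × Site d → Ω → ℝ}

/-- The theorem in the letters of the problem: the exponent. -/
theorem chiO43 (hd : d = 2) (hω : IID μ ρ ω) (hρ : EM ρ) (hM : MainO ρ β) (h : Vec d)
    (hh : lamN ρ β h < annN ρ β h) : 0 < chiT μ β ω h ∨ InD (lamN ρ β) h := by
  subst hd
  by_cases hI : InD (lamN ρ β) h
  · exact Or.inr hI
  · obtain ⟨c, hc, hn⟩ := hM h ((vsd29 h).1 hh) (cur_of_not43 hI)
    have := le_chi43 (by norm_num) hω hρ h hc hn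
    exact Or.inl (by linarith)

/-- The theorem in the letters of the problem: the variance. -/
theorem varO43 (hd : d = 2) (hω : IID μ ρ ω) (hρ : EM ρ) (hM : MainO ρ β) (h : Vec d)
    (hh : lamN ρ β h < annN ρ β h) : (∃ c : ℝ, 0 < c ∧ ∀ᶠ n : ℕ in atTop,
      (n : ℝ) ^ c ≤ Var[fun x => Real.log (Zn β h (fun p => ω p x) n); μ]) ∨
      InD (lamN ρ β) h := by
  subst hd
  by_cases hI : InD (lamN ρ β) h
  · exact Or.inr hI
  · obtain ⟨c, hc, hn⟩ := hM h ((vsd29 h).1 hh) (cur_of_not43 hI)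
    refine Or.inl ⟨c, hc, ?_⟩
    filter_upwards [hn] with n hn'
    rw [var29 (by norm_num) hω hρ h n]
    exact hn'

/-- At a tilt where the free energy is touched from above by a parabola, the exponent of the
problem is positive. -/
theorem chiUp43 (hd : d = 2) (hω : IID μ ρ ω) (hρ : EM ρ) (hM : MainO ρ β) (h v : Vec d)
    (hh : lamN ρ β h < annN ρ β h) (hU : UpG (lamN ρ β) h v 2) : 0 < chiT μ β ω h :=
  (chiO43 hd hω hρ hM h hh).resolve_right (not_of_up43 hU)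

/-- Almost every tilt. -/
theorem chiAe43 (hd : d = 2) (hω : IID μ ρ ω) (hρ : EM ρ) (hM : MainO ρ β)
    (hC : CurvP ρ β) : ∀ᵐ h : Vec d, lamN ρ β h < annN ρ β h → 0 < chiT μ β ω h := by
  subst hd
  unfold CurvP at hC
  filter_upwards [hC] with h hh hV
  obtain ⟨M, δ, hδ, H⟩ := hh
  obtain ⟨c, hc, hn⟩ := hM h ((vsd29 h).1 hV) ⟨M, δ, hδ, H⟩
  have := le_chi43 (by norm_num) hω hρ h hc hn
  linarith

end Pool.Agent.W_7d29a1_OT
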