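import Pool.Agent.W_7d29a1_OT.DefsOT

/-!
The largest variance at one tilt (helper96).
-/

namespace Pool.Agent.W_7d29a1_OT

open MeasureTheory ProbabilityTheory Filter Topology Pool.Agent.W_MP_7d29a1_pr
  Pool.Agent.W_7d29a1_h46 Pool.Agent.W_7d29a1_h46u Pool.Agent.W_7d29a1_D2.B35
  Pool.Agent.W_7d29a1_Q29 Pool.Agent.W_7d29a1_R34 Pool.Agent.W_7d29a1_SP Pool.Agent.W_7d29a1_PL

/-- The budget is monotone in the bound. -/
lemma bd_mono96 {d : ℕ} {ρ : Measure ℝ} {β : ℝ} {h : Vec d} {n : ℕ} {V V' C : ℝ} (hV : V ≤ V')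
    (hB : Bd ρ β h n V C) : Bd ρ β h n V' C := by
  intro I B θ D h1 h2 h3
  have := hB I B θ D h1 h2 h3
  linarith

/-- From the scale `N` to all lengths. -/
lemma all96 {f : ℕ → ℝ} {b : ℝ} (hb : 0 < b)
    (hf : ∀ᶠ N : ℕ in atTop, ∃ m : ℕ, m ≤ 64 * (N ^ 5) ^ 3 ∧ (N : ℝ) ^ b < f m) :
    ∃ c : ℝ, 0 < c ∧ ∀ᶠ n : ℕ in atTop, ∃ m : ℕ, m ≤ n ∧ (n : ℝ) ^ c ≤ f m := by
  refine ⟨b / 32, by positivity, ?_⟩
  obtain ⟨N₀, hN₀⟩ := eventually_atTop.1 hf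
  have l1 : Tendsto (fun n : ℕ => (n : ℝ) ^ (1 / 16 : ℝ)) atTop atTop :=
    (tendsto_rpow_atTop (by norm_num : (0 : ℝ) < 1 / 16)).comp tendsto_natCast_atTop_atTop
  filter_upwards [l1.eventually_ge_atTop (64 : ℝ), l1.eventually_ge_atTop (N₀ + 1 : ℝ),
    eventually_ge_atTop 1] with n h1 h2 h3
  have hn1 : (1 : ℝ) ≤ n := by exact_mod_cast h3
  have hn0 : (0 : ℝ) < n := by linarith
  obtain ⟨x, hx⟩ : ∃ x, x = (n : ℝ) ^ (1 / 16 : ℝ) := ⟨_, rfl⟩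
  rw [← hx] at h1 h2
  have hx0 : 0 < x := by linarith
  have hx16 : x ^ 16 = n := by
    rw [hx, ← Real.rpow_natCast, ← Real.rpow_mul hn0.le]
    norm_num
  obtain ⟨N, hN⟩ : ∃ N, N = ⌊x⌋₊ := ⟨_, rfl⟩
  have hN1 : (N : ℝ) ≤ x := by rw [hN]; exact Nat.floor_le hx0.le
  have hN2 : x < N + 1 := by rw [hN]; exact Nat.lt_floor_add_one x
  have hNN : N₀ ≤ N := by
    have : (N₀ : ℝ) < N := by linarith
    exact_mod_cast this.le
  obtain ⟨m, hm1, hm2⟩ := hN₀ N hNN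
  refine ⟨m, ?_, ?_⟩
  · have e1 : (m : ℝ) ≤ 64 * ((N : ℝ) ^ 5) ^ 3 := by exact_mod_cast hm1
    have e2 : ((N : ℝ) ^ 5) ^ 3 ≤ x ^ 15 := by
      have : ((N : ℝ) ^ 5) ^ 3 = (N : ℝ) ^ 15 := by ring
      rw [this]
      exact pow_le_pow_left₀ (Nat.cast_nonneg N) hN1 15
    have e3 : 64 * x ^ 15 ≤ x ^ 16 := by
      have : x ^ 16 = x * x ^ 15 := by ring
      rw [this]
      exact mul_le_mul_of_nonneg_right h1 (by positivity)
    have e4 : (m : ℝ) ≤ n := by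
      rw [← hx16]
      linarith
    exact_mod_cast e4
  · have e1 : Real.sqrt x ≤ N := by
      have e2 : Real.sqrt x ≤ x / 2 := by
        rw [Real.sqrt_le_left (by positivity)]
        nlinarith
      linarith
    have e3 : (n : ℝ) ^ (b / 32) = Real.sqrt x ^ b := by
      rw [Real.sqrt_eq_rpow, hx, ← Real.rpow_mul hn0.le, ← Real.rpow_mul hn0.le]
      congr 1
      ring
    rw [e3]
    exact (Real.rpow_le_rpow (Real.sqrt_nonneg x) e1 hb.le).trans hm2.le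

/-- **MAXE.** The largest variance at one tilt. -/
theorem maxE96 {ρ : Measure ℝ} {β : ℝ} (hB : BudE ρ β) (hE : Pool.Agent.W_7d29a1_PA.EnN ρ β)
    (hC : Pool.Agent.W_7d29a1_PA.CorN ρ β) : MaxE ρ β := by
  intro h hV
  obtain ⟨g, hg⟩ : ∃ g, g = Real.log (Phi h) + Real.log (∫ t, Real.exp (β * t) ∂ρ) -
    lam ρ β h := ⟨_, rfl⟩
  have hg0 : 0 < g := by
    unfold VSD at hV
    rw [hg]
    linarith
  have hgap : Gap ρ β h g := by
    unfold Gap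
    rw [hg]
    linarith
  obtain ⟨C, hC0, hB⟩ := hB g hg0
  obtain ⟨c₁, hc₁, hC⟩ := hC g C hg0 hC0
  obtain ⟨a, ha⟩ : ∃ a, a = min (1 / 8) (c₁ / (C + 1)) := ⟨_, rfl⟩
  have ha0 : 0 < a := by
    rw [ha]
    exact lt_min (by norm_num) (by positivity)
  have ha1 : a ≤ 1 / 8 := by rw [ha]; exact min_le_left _ _
  have ha2 : a * (C + 1) ≤ c₁ := by
    have h1 : a ≤ c₁ / (C + 1) := by rw [ha]; exact min_le_right _ _
    rwa [le_div_iff₀ (by positivity)] at h1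
  have hac : a ≤ c₁ := by nlinarith
  obtain ⟨c, hc⟩ : ∃ c, c = a / 16 := ⟨_, rfl⟩
  have hc0 : 0 < c := by rw [hc]; positivity
  refine ⟨a / 4, by positivity, ?_⟩
  rintro ⟨δ, hδ, hcur⟩
  obtain ⟨n₁, hn₁⟩ := hB h δ a c hδ ha0 ha1 hc0 (by rw [hc]; linarith) hgap hcur
  obtain ⟨n₂, hn₂⟩ := hC h hgap
  obtain ⟨n₃, hn₃⟩ := hE h (c / 10) (c / 5) (by positivity) (by linarith)
  refine all96 (f := Va ρ β h) (b := c / 2) (by positivity) ?_
  filter_upwards [eventually_ge_atTop n₁, eventually_ge_atTop n₂, eventually_ge_atTop n₃,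
    eventually_ge_atTop 4] with N h1 h2 h3 h4
  by_contra hcon
  push Not at hcon
  have hN1 : (1 : ℝ) ≤ N := by exact_mod_cast (by omega : 1 ≤ N)
  have hN0 : (0 : ℝ) < N := by linarith
  have hN5 : N ≤ N ^ 5 := Nat.le_self_pow (by norm_num) N
  have hpow : ∀ b : ℝ, ((N ^ 5 : ℕ) : ℝ) ^ b = (N : ℝ) ^ (5 * b) := by
    intro b
    rw [Nat.cast_pow, ← Real.rpow_natCast, ← Real.rpow_mul hN0.le]
    norm_num
  have hEn : ∀ m : ℕ, m ≤ 4 * N ^ 5 → En ρ β h m ≤ (N : ℝ) ^ c := by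
    intro m hm
    have e1 := hn₃ (N ^ 5) (h3.trans hN5) (fun k hk => by
      rw [hpow]
      have e2 : 5 * (c / 10) = c / 2 := by ring
      rw [e2]
      exact hcon k hk) m hm
    rw [hpow] at e1
    have e2 : 5 * (c / 5) = c := by ring
    rwa [e2] at e1
  have hVa : ∀ m : ℕ, m ≤ N ^ 5 → Va ρ β h m ≤ (N : ℝ) ^ c := by
    intro m hm
    have e1 : m ≤ 64 * (N ^ 5) ^ 3 := by
      have e2 : N ^ 5 ≤ (N ^ 5) ^ 3 := Nat.le_self_pow (by norm_num) _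
      omega
    exact (hcon m e1).trans (Real.rpow_le_rpow_of_exponent_le hN1 (by linarith))
  have hbd := hn₁ N h1 (fun m hm => ⟨hVa m hm, hEn m (by omega)⟩)
  refine hn₂ N h2 (fun k hk => ?_) (bd_mono96 ?_ hbd)
  · have e0 : 4 * N ≤ N ^ 5 := by
      have e1 : N ^ 5 = N ^ 4 * N := by ring
      have e2 : 4 ≤ N ^ 4 := h4.trans (Nat.le_self_pow (by norm_num) N)
      rw [e1]
      exact Nat.mul_le_mul_right N e2
    have e1 : k ≤ N ^ 5 := hk.trans e0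
    have e3 : (N : ℝ) ^ c ≤ (N : ℝ) ^ c₁ :=
      Real.rpow_le_rpow_of_exponent_le hN1 (by rw [hc]; linarith)
    exact ⟨(hVa k e1).trans e3, (hEn k (by omega)).trans e3⟩
  · refine mul_le_mul_of_nonneg_right ?_ (Real.log_nonneg hN1)
    nlinarith

/-- **MAXO** from MAXE. -/
theorem maxO96 {ρ : Measure ℝ} {β : ℝ} (hM : MaxE ρ β) : MaxO ρ β := by
  intro h hV
  obtain ⟨e, he, hM⟩ := hM h hV
  rintro ⟨M, δ, hδ, hcur⟩
  refine hM ?_
  have h1 : Tendsto (fun r : ℝ => r ^ e) (𝓝[>] 0) (𝓝 0) := by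
    have h2 := (Real.continuousAt_rpow_const 0 e (Or.inr he.le)).tendsto
    rw [Real.zero_rpow he.ne'] at h2
    exact h2.mono_left nhdsWithin_le_nhds
  have h2 : ∀ᶠ r : ℝ in 𝓝[>] 0, (|M| + 1) * r ^ e ≤ 1 := by
    have h3 := h1.const_mul (|M| + 1)
    rw [mul_zero] at h3
    exact (h3.eventually (gt_mem_nhds one_pos)).mono fun r hr => hr.le
  obtain ⟨u, hu, hu2⟩ := mem_nhdsGT_iff_exists_Ioo_subset.1 h2
  have hu0 : 0 < u := hu
  refine ⟨min δ (u / 2), lt_min hδ (by positivity), fun r hr hrδ j => ?_⟩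
  have h4 : (|M| + 1) * r ^ e ≤ 1 := hu2 ⟨hr, by
    have := (hrδ.trans (min_le_right _ _))
    linarith⟩
  refine (hcur r hr (hrδ.trans (min_le_left _ _)) j).trans ?_
  have h5 : r ^ (2 - e) = r ^ 2 / r ^ e := by
    rw [Real.rpow_sub hr, Real.rpow_two]
  have h6 : 0 < r ^ e := Real.rpow_pos_of_pos hr e
  rw [h5, le_div_iff₀ h6]
  have h7 : M * r ^ e ≤ 1 := by
    have := le_abs_self M
    nlinarith
  have h8 := mul_le_mul_of_nonneg_right h7 (sq_nonneg r)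
  calc M * r ^ 2 * r ^ e = M * r ^ e * r ^ 2 := by ring
    _ ≤ 1 * r ^ 2 := h8
    _ = r ^ 2 := one_mul _

end Pool.Agent.W_7d29a1_OT
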