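import Pool.Agent.W_7d29a1_OT.MaxE24

/-!
Theorem OT, uniformly on the tilts with a given gap: one exponent for all of them (helper67).
-/

set_option autoImplicit false

namespace Pool.Agent.W_7d29a1_OT

open MeasureTheory ProbabilityTheory Filter Topology Pool.Agent.W_MP_7d29a1_pr
  Pool.Agent.W_7d29a1_h46 Pool.Agent.W_7d29a1_h46u Pool.Agent.W_7d29a1_D2.B35
  Pool.Agent.W_7d29a1_Q29 Pool.Agent.W_7d29a1_R34 Pool.Agent.W_7d29a1_SP Pool.Agent.W_7d29a1_PL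
  Pool.Agent.W_7d29a1_PA

/-- The largest variance, with one exponent for all tilts of a given gap. -/
def MaxU (ρ : Measure ℝ) (β : ℝ) : Prop := ∀ g : ℝ, 0 < g → ∃ c : ℝ, 0 < c ∧ ∀ h : Vec 2,
  Gap ρ β h g → (∃ δ : ℝ, 0 < δ ∧ CurE ρ β h c δ) →
    ∀ᶠ n : ℕ in atTop, ∃ m : ℕ, m ≤ n ∧ (n : ℝ) ^ c ≤ Va ρ β h m

/-- **The theorem** (`d = 2`), with one exponent for all tilts of a given gap. -/
def MainU (ρ : Measure ℝ) (β : ℝ) : Prop := ∀ g : ℝ, 0 < g → ∃ c : ℝ, 0 < c ∧ ∀ h : Vec 2,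
  Gap ρ β h g → (∃ δ : ℝ, 0 < δ ∧ CurE ρ β h c δ) →
    ∀ᶠ n : ℕ in atTop, (n : ℝ) ^ c ≤ Va ρ β h n

/-- A smaller exponent is a stronger bound of the second differences. -/
lemma curE_mono67 {ρ : Measure ℝ} {β : ℝ} {h : Vec 2} {e e' : ℝ} (hee : e ≤ e')
    (hC : ∃ δ : ℝ, 0 < δ ∧ CurE ρ β h e δ) : ∃ δ : ℝ, 0 < δ ∧ CurE ρ β h e' δ := by
  obtain ⟨δ, hδ, H⟩ := hC
  refine ⟨min δ 1, lt_min hδ one_pos, fun r hr hrδ j => ?_⟩
  refine (H r hr (hrδ.trans (min_le_left _ _)) j).trans ?_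
  exact Real.rpow_le_rpow_of_exponent_ge hr (hrδ.trans (min_le_right _ _)) (by linarith)

/-- A budget below the core at every large time forces a power at all large times, with the value
of the exponent. -/
theorem allE67 {ρ : Measure ℝ} {β : ℝ} (hE : EnN ρ β) {h : Vec 2} {a c₁ Cb : ℝ} {n₁ n₃ : ℕ}
    (ha0 : 0 < a) (ha1 : a ≤ c₁) (ha2 : Cb * a ≤ c₁)
    (hn₁ : ∀ n : ℕ, n₁ ≤ n → (∀ k : ℕ, k ≤ 4 * n → Va ρ β h k ≤ (n : ℝ) ^ c₁ ∧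
      En ρ β h k ≤ (n : ℝ) ^ c₁) → ¬ Bd ρ β h n (c₁ * Real.log n) Cb)
    (hn₃ : ∀ n : ℕ, n₃ ≤ n → (∀ m : ℕ, m ≤ n ^ 5 → Va ρ β h m ≤ (n : ℝ) ^ (a / 8) ∧
      En ρ β h m ≤ (n : ℝ) ^ (a / 8)) → Bd ρ β h n (Cb * a * Real.log n) Cb) :
    ∀ᶠ n : ℕ in atTop, ∃ m : ℕ, m ≤ n ∧ (n : ℝ) ^ (a / 256) ≤ Va ρ β h m := by
  set s : ℝ := a / 80 with hs
  have hs0 : 0 < s := by rw [hs]; positivity
  obtain ⟨n₂, hn₂⟩ := hE h s (2 * s) hs0 (by linarith)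
  -- along fifth powers
  have key : ∀ n : ℕ, max n₁ (max n₂ (max n₃ 1)) ≤ n →
      ∃ m : ℕ, m ≤ 64 * n ^ 15 ∧ (n : ℝ) ^ (5 * s) ≤ Va ρ β h m := by
    intro n hn
    by_contra hcon
    push Not at hcon
    have k1 : n₁ ≤ n := (le_max_left _ _).trans hn
    have k2 : n₂ ≤ n := (le_max_left _ _).trans ((le_max_right _ _).trans hn)
    have k3 : n₃ ≤ n :=
      (le_max_left _ _).trans ((le_max_right _ _).trans ((le_max_right _ _).trans hn))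
    have k4 : 1 ≤ n :=
      (le_max_right _ _).trans ((le_max_right _ _).trans ((le_max_right _ _).trans hn))
    have hn1 : (1 : ℝ) ≤ n := by exact_mod_cast k4
    have hn0 : (0 : ℝ) ≤ n := by linarith
    have hlog : 0 ≤ Real.log n := Real.log_nonneg hn1
    have h5 : n ≤ n ^ 5 := Nat.le_self_pow (by norm_num) n
    have h15 : n ^ 5 ≤ n ^ 15 := Nat.pow_le_pow_right k4 (by norm_num)
    have e5 : ∀ x : ℝ, (((n ^ 5 : ℕ) : ℝ)) ^ x = (n : ℝ) ^ (5 * x) := by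
      intro x
      rw [Nat.cast_pow, ← Real.rpow_natCast, ← Real.rpow_mul hn0]
      norm_num
    have hVa : ∀ m : ℕ, m ≤ 64 * (n ^ 5) ^ 3 → Va ρ β h m ≤ ((n ^ 5 : ℕ) : ℝ) ^ s := by
      intro m hm
      rw [e5]
      refine (hcon m ?_).le
      rw [← pow_mul] at hm
      simpa using hm
    have hEn := hn₂ (n ^ 5) (k2.trans h5) hVa
    have hs8 : (n : ℝ) ^ (5 * s) ≤ (n : ℝ) ^ (a / 8) :=
      Real.rpow_le_rpow_of_exponent_le hn1 (by rw [hs]; linarith)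
    have hs9 : ((n ^ 5 : ℕ) : ℝ) ^ (2 * s) = (n : ℝ) ^ (a / 8) := by
      rw [e5]
      congr 1
      rw [hs]
      ring
    have hall : ∀ m : ℕ, m ≤ n ^ 5 → Va ρ β h m ≤ (n : ℝ) ^ (a / 8) ∧
        En ρ β h m ≤ (n : ℝ) ^ (a / 8) := by
      intro m hm
      refine ⟨(hcon m (by omega)).le.trans hs8, ?_⟩
      rw [← hs9]
      exact hEn m (by omega)
    have hBd := hn₃ n k3 hall
    have hac : (n : ℝ) ^ (a / 8) ≤ (n : ℝ) ^ c₁ :=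
      Real.rpow_le_rpow_of_exponent_le hn1 (by linarith)
    refine hn₁ n k1 (fun k hk => ⟨?_, ?_⟩) (bd_mono73 (mul_le_mul_of_nonneg_right ha2 hlog) hBd)
    · exact ((hcon k (by omega)).le.trans hs8).trans hac
    · refine le_trans ?_ hac
      rw [← hs9]
      exact hEn k (by omega)
  -- all times
  have hsa : a / 256 = 5 * s / 16 := by
    rw [hs]
    ring
  rw [hsa]
  have hT : Tendsto (fun k : ℕ => ⌊((k : ℝ) / 64) ^ (1 / 15 : ℝ)⌋₊) atTop atTop :=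
    tendsto_nat_floor_atTop.comp ((tendsto_rpow_atTop (by norm_num : (0 : ℝ) < 1 / 15)).comp
      (tendsto_natCast_atTop_atTop.atTop_div_const (by norm_num)))
  filter_upwards [hT.eventually_ge_atTop (max (max n₁ (max n₂ (max n₃ 1))) (2 ^ 21))] with k hk
  obtain ⟨n, hndef⟩ : ∃ n, n = ⌊((k : ℝ) / 64) ^ (1 / 15 : ℝ)⌋₊ := ⟨_, rfl⟩
  rw [← hndef] at hk
  obtain ⟨m, hm, hmV⟩ := key n ((le_max_left _ _).trans hk)
  have hn21 : 2 ^ 21 ≤ n := (le_max_right _ _).trans hk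
  have hn21' : (2 : ℝ) ^ 21 ≤ n := by exact_mod_cast hn21
  have hn0 : (0 : ℝ) < n := lt_of_lt_of_le (by positivity) hn21'
  have hx0 : 0 ≤ ((k : ℝ) / 64) ^ (1 / 15 : ℝ) := by positivity
  have hx15 : (((k : ℝ) / 64) ^ (1 / 15 : ℝ)) ^ 15 = (k : ℝ) / 64 := by
    rw [← Real.rpow_natCast, ← Real.rpow_mul (by positivity)]
    norm_num
  have h1 : (n : ℝ) ≤ ((k : ℝ) / 64) ^ (1 / 15 : ℝ) := by
    rw [hndef]
    exact Nat.floor_le hx0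
  have h2 : ((k : ℝ) / 64) ^ (1 / 15 : ℝ) < n + 1 := by
    rw [hndef]
    exact Nat.lt_floor_add_one _
  have h3 : (n : ℝ) ^ 15 ≤ (k : ℝ) / 64 := by
    rw [← hx15]
    exact pow_le_pow_left₀ hn0.le h1 15
  have h4 : (k : ℝ) / 64 ≤ (2 * (n : ℝ)) ^ 15 := by
    rw [← hx15]
    refine pow_le_pow_left₀ hx0 (h2.le.trans ?_) 15
    have : (1 : ℝ) ≤ n := le_trans (by norm_num) hn21'
    linarith
  have h5 : (k : ℝ) ≤ (n : ℝ) ^ (16 : ℝ) := by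
    have e : (2 * (n : ℝ)) ^ 15 * 64 = (2 : ℝ) ^ 21 * (n : ℝ) ^ 15 := by ring
    have h6 : (k : ℝ) ≤ (2 : ℝ) ^ 21 * (n : ℝ) ^ 15 := by
      rw [← e]
      linarith
    have h7 : (2 : ℝ) ^ 21 * (n : ℝ) ^ 15 ≤ n * (n : ℝ) ^ 15 :=
      mul_le_mul_of_nonneg_right hn21' (by positivity)
    have h8 : (n : ℝ) ^ (16 : ℝ) = n * (n : ℝ) ^ 15 := by
      rw [show (16 : ℝ) = ((16 : ℕ) : ℝ) by norm_num, Real.rpow_natCast]
      ring
    rw [h8]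
    exact h6.trans h7
  refine ⟨m, ?_, ?_⟩
  · have h6 : ((64 * n ^ 15 : ℕ) : ℝ) ≤ k := by
      push_cast
      linarith
    exact hm.trans (by exact_mod_cast h6)
  · refine le_trans ?_ hmV
    have h6 : (k : ℝ) ^ (5 * s / 16) ≤ ((n : ℝ) ^ (16 : ℝ)) ^ (5 * s / 16) :=
      Real.rpow_le_rpow (Nat.cast_nonneg k) h5 (by positivity)
    rw [← Real.rpow_mul hn0.le] at h6
    have e : (16 : ℝ) * (5 * s / 16) = 5 * s := by ring
    rwa [e] at h6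

/-- MAXU. -/
theorem maxU67 {ρ : Measure ℝ} {β : ℝ} (hB : BudE ρ β) (hE : EnN ρ β) (hC : CorN ρ β) :
    MaxU ρ β := by
  intro g hg
  obtain ⟨Cb, hCb, hB'⟩ := hB g hg
  obtain ⟨c₁, hc₁, hC'⟩ := hC g Cb hg hCb
  obtain ⟨a, ha0, ha8, ha1, ha2⟩ : ∃ a : ℝ, 0 < a ∧ a ≤ 1 / 8 ∧ a ≤ c₁ ∧ Cb * a ≤ c₁ := by
    refine ⟨min (1 / 8) (c₁ / (Cb + 1)), lt_min (by norm_num) (by positivity), min_le_left _ _,
      ?_, ?_⟩
    · refine (min_le_right _ _).trans (div_le_self hc₁.le (by linarith))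
    · have h1 : Cb * min (1 / 8) (c₁ / (Cb + 1)) ≤ Cb * (c₁ / (Cb + 1)) :=
        mul_le_mul_of_nonneg_left (min_le_right _ _) hCb
      have h2 : Cb * (c₁ / (Cb + 1)) ≤ (Cb + 1) * (c₁ / (Cb + 1)) :=
        mul_le_mul_of_nonneg_right (by linarith) (by positivity)
      have h3 : (Cb + 1) * (c₁ / (Cb + 1)) = c₁ := by field_simp
      linarith
  refine ⟨a / 256, by positivity, fun h hgap hcur => ?_⟩
  obtain ⟨n₁, hn₁⟩ := hC' h hgap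
  obtain ⟨δ, hδ, hcur'⟩ := curE_mono67 (show a / 256 ≤ a / 4 by linarith) hcur
  obtain ⟨n₃, hn₃⟩ := hB' h δ a (a / 8) hδ ha0 ha8 (by positivity) (by linarith) hgap hcur'
  exact allE67 hE ha0 ha1 ha2 hn₁ hn₃

end Pool.Agent.W_7d29a1_OT
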