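import Pool.Agent.W_7d29a1_OT.UniE67
import Pool.Agent.W_7d29a1_OT.MainE43
import Pool.Agent.W_7d29a1_L2.All81
import Pool.Agent.W_7d29a1_Q29.Half72
import Pool.Agent.W_7d29a1_SP.Curv13

/-!
Theorem OT, uniformly on balls of tilts, in the letters of the problem: one exponent for all tilts
of a ball (helper67).
-/

set_option autoImplicit false

namespace Pool.Agent.W_7d29a1_OT

open MeasureTheory ProbabilityTheory Filter Topology Pool.Agent.W_MP_7d29a1_pr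
  Pool.Agent.W_7d29a1_h46 Pool.Agent.W_7d29a1_h46u Pool.Agent.W_7d29a1_D2
  Pool.Agent.W_7d29a1_D2.B35
  Pool.Agent.W_7d29a1_Q29 Pool.Agent.W_7d29a1_R34 Pool.Agent.W_7d29a1_SP Pool.Agent.W_7d29a1_PL
  Pool.Agent.W_7d29a1_PA

/-- The plug, with the monotonicity of the variance. -/
theorem mainU67 {ρ : Measure ℝ} [IsProbabilityMeasure ρ] {β t : ℝ} (ht0 : 0 < t) (ht1 : t < 1)
    (hM : Pool.Agent.W_7d29a1_NR.MonP 2 ρ β t) (hO : MaxU ρ β) : MainU ρ β := by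
  intro g hg
  obtain ⟨c, hc, H⟩ := hO g hg
  refine ⟨c / 2, by linarith, fun h hgap hC => ?_⟩
  exact Pool.Agent.W_7d29a1_NR.monAll43 ht0 ht1 hM h (by linarith) (by linarith)
    (H h hgap (curE_mono67 (by linarith) hC))

/-- The plug, every law. -/
theorem mainUU67 {ρ : Measure ℝ} [IsProbabilityMeasure ρ] {β : ℝ} (hρ : EM ρ)
    (hnc : ∀ c : ℝ, ρ {c} ≠ 1) (hβ : 0 < β) (hO : MaxU ρ β) : MainU ρ β := by
  obtain ⟨t, ht0, ht1, hM⟩ :=
    Pool.Agent.W_7d29a1_NR.monU44 (d := 2) (ρ := ρ) (β := β) (by norm_num) hρ hnc hβ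
  exact mainU67 ht0 ht1 hM hO

/-- The gap is bounded below on every ball (`d = 2`). -/
lemma gapK67 {ρ : Measure ℝ} [IsProbabilityMeasure ρ] {β : ℝ} (hρ : EM ρ)
    (hnc : ∀ c : ℝ, ρ {c} ≠ 1) (hβ : 0 < β) (K : ℝ) :
    ∃ g : ℝ, 0 < g ∧ ∀ h : Vec 2, ‖h‖ ≤ K → Gap ρ β h g := by
  have hd : 0 < 2 := by norm_num
  have hc : Continuous fun h : Vec 2 => Real.log (Phi h) +
      Real.log (∫ t, Real.exp (β * t) ∂ρ) - lam ρ β h :=
    ((Continuous.log continuous_Phi72 fun h => (Phi_pos61 hd _).ne').add continuous_const).sub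
      (continuousOn_univ.1 ((lam_convex hd hρ β).continuousOn isOpen_univ))
  rcases lt_or_ge K 0 with hK | hK
  · exact ⟨1, one_pos, fun h hh => absurd (norm_nonneg h) (by linarith)⟩
  have hne : (Metric.closedBall (0 : Vec 2) K).Nonempty := ⟨0, Metric.mem_closedBall_self hK⟩
  obtain ⟨h₀, -, hmin⟩ := (isCompact_closedBall (0 : Vec 2) K).exists_isMinOn hne hc.continuousOn
  refine ⟨Real.log (Phi h₀) + Real.log (∫ t, Real.exp (β * t) ∂ρ) - lam ρ β h₀, ?_,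
    fun h hh => ?_⟩
  · have h1 : VSD ρ β h₀ := W_7d29a1_L2.vsd2 hρ hnc hβ h₀
    unfold VSD at h1
    linarith
  · have h1 : h ∈ Metric.closedBall (0 : Vec 2) K := by
      rw [mem_closedBall_zero_iff]
      exact hh
    have h2 := hmin h1
    simp only [Set.mem_ofPred_eq] at h2
    unfold Gap
    linarith

variable {Ω : Type*} [MeasurableSpace Ω] {μ : Measure Ω} [IsProbabilityMeasure μ]
  {ρ : Measure ℝ} [IsProbabilityMeasure ρ] {β : ℝ} {d : ℕ} {ω : ℕ × Site d → Ω → ℝ}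

/-- **One exponent for all tilts of a ball**, the variance of the problem. -/
theorem varK67 (hd : d = 2) (hω : IID μ ρ ω) (hρ : EM ρ) (hnc : ∀ c : ℝ, ρ {c} ≠ 1) (hβ : 0 < β)
    (hM : MainU ρ β) (K : ℝ) : ∃ c : ℝ, 0 < c ∧
      (∀ h : Vec d, ‖h‖ ≤ K → (∀ᶠ n : ℕ in atTop,
        (n : ℝ) ^ c ≤ Var[fun x => Real.log (Zn β h (fun p => ω p x) n); μ]) ∨
          InE (lamN ρ β) h c) ∧
      ∀ᵐ h : Vec d, ‖h‖ ≤ K → ∀ᶠ n : ℕ in atTop,
        (n : ℝ) ^ c ≤ Var[fun x => Real.log (Zn β h (fun p => ω p x) n); μ] := by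
  subst hd
  obtain ⟨g, hg, hgap⟩ := gapK67 (ρ := ρ) (β := β) hρ hnc hβ K
  obtain ⟨c, hc, H⟩ := hM g hg
  have key : ∀ h : Vec 2, ‖h‖ ≤ K → (∃ δ : ℝ, 0 < δ ∧ CurE ρ β h c δ) → ∀ᶠ n : ℕ in atTop,
      (n : ℝ) ^ c ≤ Var[fun x => Real.log (Zn β h (fun p => ω p x) n); μ] := by
    intro h hh hC
    filter_upwards [H h (hgap h hh) hC] with n hn
    rw [var29 (by norm_num) hω hρ h n]
    exact hn
  refine ⟨c, hc, fun h hh => ?_, ?_⟩
  · by_cases hI : InE (lamN ρ β) h c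
    · exact Or.inr hI
    · exact Or.inl (key h hh (curE_of_not43 hI))
  · have hcur : CurvP ρ β := curv13 hρ
    unfold CurvP at hcur
    filter_upwards [hcur] with h h1 hh
    obtain ⟨M, δ, hδ, h2⟩ := h1
    exact key h hh (cur_curE24 hc hδ h2)

/-- **One exponent for all tilts of a ball**, the exponent of the problem: `c ≤ χ` at every tilt of
the ball, unless the second differences of the free energy exceed `r ^ (2 - c)`, and at almost every
tilt of the ball. -/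
theorem chiK67 (hd : d = 2) (hω : IID μ ρ ω) (hρ : EM ρ) (hnc : ∀ c : ℝ, ρ {c} ≠ 1) (hβ : 0 < β)
    (hM : MainU ρ β) (K : ℝ) : ∃ c : ℝ, 0 < c ∧
      (∀ h : Vec d, ‖h‖ ≤ K → c ≤ chiT μ β ω h ∨ InE (lamN ρ β) h c) ∧
      ∀ᵐ h : Vec d, ‖h‖ ≤ K → c ≤ chiT μ β ω h := by
  subst hd
  obtain ⟨g, hg, hgap⟩ := gapK67 (ρ := ρ) (β := β) hρ hnc hβ K
  obtain ⟨c, hc, H⟩ := hM g hg
  have key : ∀ h : Vec 2, ‖h‖ ≤ K → (∃ δ : ℝ, 0 < δ ∧ CurE ρ β h (c / 2) δ) →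
      c / 2 ≤ chiT μ β ω h := fun h hh hC =>
    le_chi43 (by norm_num) hω hρ h hc (H h (hgap h hh) (curE_mono67 (by linarith) hC))
  refine ⟨c / 2, by linarith, fun h hh => ?_, ?_⟩
  · by_cases hI : InE (lamN ρ β) h (c / 2)
    · exact Or.inr hI
    · exact Or.inl (key h hh (curE_of_not43 hI))
  · have hcur : CurvP ρ β := curv13 hρ
    unfold CurvP at hcur
    filter_upwards [hcur] with h h1 hh
    obtain ⟨M, δ, hδ, h2⟩ := h1
    exact key h hh (cur_curE24 (by linarith) hδ h2)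

end Pool.Agent.W_7d29a1_OT
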